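import Mathlib

/-!
Definitions for MP_ecbb26_gt: singular cochains, the Alexander-Whitney cup product, cup-length,
and the maximal normal curvature of an immersion of a manifold into Euclidean space.
-/

open scoped Manifold ContDiff ENNReal

namespace Pool.Agent.Lib.MP_ecbb26_gt

/-- Singular `n`-simplices of a space `X`: continuous maps from the standard `n`-simplex. -/
abbrev SingSimplex (X : Type) [TopologicalSpace X] (n : ℕ) : Type :=
  C(stdSimplex ℝ (Fin (n + 1)), X)

/-- The singular `p`-simplex obtained from a singular `n`-simplex `σ` by restricting it along the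
affine map of standard simplices that sends the vertex `i` to the vertex `φ i`. -/
noncomputable def face {X : Type} [TopologicalSpace X] {p n : ℕ} (σ : SingSimplex X n)
    (φ : Fin (p + 1) → Fin (n + 1)) : SingSimplex X p :=
  σ.comp ⟨stdSimplex.map φ, stdSimplex.continuous_map φ⟩

/-- Singular `n`-cochains of `X` with coefficients in `K`: functions on singular `n`-simplices. -/
abbrev Cochain (K : Type) (X : Type) [TopologicalSpace X] (n : ℕ) : Type :=
  SingSimplex X n → K

/-- The singular coboundary: `(δ c)(σ) = ∑ (-1)^i c(σ without its i-th vertex)`. -/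
noncomputable def coboundary {K : Type} [Field K] {X : Type} [TopologicalSpace X] {n : ℕ}
    (c : Cochain K X n) : Cochain K X (n + 1) :=
  fun σ => ∑ i : Fin (n + 2), (-1) ^ (i : ℕ) * c (face σ i.succAbove)

/-- A cochain is a coboundary (a cocycle is a coboundary iff its cohomology class is zero):
in degree `0` only `0` is one, in degree `n + 1` those of the form `δ b`. -/
def IsCoboundary {K : Type} [Field K] {X : Type} [TopologicalSpace X] :
    {n : ℕ} → Cochain K X n → Prop
  | 0, c => c = 0
  | n + 1, c => ∃ b : Cochain K X n, coboundary b = c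

/-- The (Alexander-Whitney) cup product of singular cochains:
`(a ⌣ b)(σ) = a(σ on vertices 0..p) * b(σ on vertices p..p+q)`. -/
noncomputable def cup {K : Type} [Field K] {X : Type} [TopologicalSpace X] {p q : ℕ}
    (a : Cochain K X p) (b : Cochain K X q) : Cochain K X (p + q) :=
  fun σ => a (face σ (Fin.castLE (Nat.succ_le_succ (Nat.le_add_right p q)))) *
    b (face σ (Fin.natAdd p))

/-- The cup product `a₁ ⌣ (a₂ ⌣ (⋯ ⌣ (a_l ⌣ 1)))` of a list of cochains, each given with its
degree; the empty product is the unit `0`-cochain `1`. -/
noncomputable def cupList {K : Type} [Field K] {X : Type} [TopologicalSpace X] :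
    List (Σ n : ℕ, Cochain K X n) → Σ n : ℕ, Cochain K X n
  | [] => ⟨0, fun _ => 1⟩
  | a :: L => ⟨a.1 + (cupList L).1, cup a.2 (cupList L).2⟩

/-- `X` has cup-length at least `l` over `K`: there are `l` singular cocycles of positive degrees
whose cup product is not a coboundary, that is, `l` classes of positive degree in `H^*(X; K)`
with nonzero cup product. -/
def CupLengthAtLeast (K : Type) [Field K] (X : Type) [TopologicalSpace X] (l : ℕ) : Prop :=
  ∃ L : List (Σ n : ℕ, Cochain K X n), L.length = l ∧
    (∀ a ∈ L, 0 < a.1 ∧ coboundary a.2 = 0) ∧ ¬ IsCoboundary (cupList L).2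

section Curvature

variable (E : Type) [NormedAddCommGroup E] [NormedSpace ℝ E]
  {F : Type} [NormedAddCommGroup F] [InnerProductSpace ℝ F] [FiniteDimensional ℝ F]
  {X : Type} [TopologicalSpace X] [ChartedSpace E X]

/-- A smooth immersion into the closed unit ball of the Euclidean space `F` of a manifold `X`
modelled on `E`: a smooth map with injective differential at every point and `|f| ≤ 1`. -/
def IsBallImmersion (f : X → F) : Prop :=
  ContMDiff 𝓘(ℝ, E) 𝓘(ℝ, F) ∞ f ∧ (∀ x, Function.Injective (mfderiv 𝓘(ℝ, E) 𝓘(ℝ, F) f x)) ∧
    ∀ x, ‖f x‖ ≤ 1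

/-- The differential of `f ∘ φ⁻¹`, the map `f` read in the chart `φ` of `X` at `x`. Tangent vectors
at `x` are written in this chart, so the differential of `f` at `x` is its value at `φ x`. -/
noncomputable def chartDeriv (f : X → F) (x : X) : E → E →L[ℝ] F :=
  fderiv ℝ (f ∘ (chartAt E x).symm)

/-- The second derivative `D²(f ∘ φ⁻¹)(φ x)(v, v)`, where `φ` is the chart at `x`. -/
noncomputable def chartHessian (f : X → F) (x : X) (v : E) : F :=
  fderiv ℝ (chartDeriv E f x) (chartAt E x x) v v

/-- The vector-valued second fundamental form `II_x(v, v)` of `f` at `x`, for a tangent vector `v`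
at `x`: the component of `D²(f ∘ φ⁻¹)(φ x)(v, v)` orthogonal to the image of the differential
`D(f ∘ φ⁻¹)(φ x)`, where `φ` is the chart at `x`. -/
noncomputable def secondFundamentalForm (f : X → F) (x : X) (v : E) : F :=
  (LinearMap.range (chartDeriv E f x (chartAt E x x)).toLinearMap)ᗮ.starProjection
    (chartHessian E f x v)

/-- The maximal normal curvature of `f`: the supremum of `|II_x(v, v)|` over all points `x` and
all tangent vectors `v` at `x` of length one in the induced metric, `|df_x v| = 1`
(a supremum taken in `[0, ∞]`). -/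
noncomputable def normalCurvature (f : X → F) : ℝ≥0∞ :=
  ⨆ (x : X) (v : E) (_ : ‖chartDeriv E f x (chartAt E x x) v‖ = 1),
    ‖secondFundamentalForm E f x v‖ₑ

end Curvature

end Pool.Agent.Lib.MP_ecbb26_gt
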