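import Pool.Agent.Lib.MP_ecbb26_gt.Defs

/-!
A space that retracts (up to radii) onto an `l`-torus has cup-length at least `l` over `ℂ`.
-/

namespace Pool.Agent.Lib.MP_ecbb26_gt

open Complex

variable {X : Type} [TopologicalSpace X]

theorem exists_log_lift {n : ℕ} (g : C(stdSimplex ℝ (Fin (n + 1)), ℂ)) (hg : ∀ t, g t ≠ 0) :
    ∃ F : C(stdSimplex ℝ (Fin (n + 1)), ℂ), ∀ t, exp (F t) = g t := by
  have hc : Convex ℝ (stdSimplex ℝ (Fin (n + 1))) := convex_stdSimplex ℝ _
  have : ContractibleSpace (stdSimplex ℝ (Fin (n + 1))) :=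
    hc.contractibleSpace ⟨_, single_mem_stdSimplex ℝ 0⟩
  have : LocallyPathConnectedSpace (stdSimplex ℝ (Fin (n + 1))) := hc.locallyPathConnectedSpace
  obtain ⟨F, ⟨-, hF⟩, -⟩ := isCoveringMapOn_exp.existsUnique_continuousMap_lifts g
    (a₀ := stdSimplex.vertex 0) (exp_log (hg _)) (fun t => hg t)
  exact ⟨F, fun t => congrFun hF t⟩

theorem log_lift_diff {n : ℕ} (F G : C(stdSimplex ℝ (Fin (n + 1)), ℂ))
    (h : ∀ t, exp (F t) = exp (G t)) (a b : stdSimplex ℝ (Fin (n + 1))) :
    F a - F b = G a - G b := by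
  have key : (fun t => (F t - G t)) = fun _ => F b - G b := by
    refine isCoveringMap_exp.eq_of_comp_eq (g₁ := fun t => (F t - G t))
      (g₂ := fun _ => F b - G b) (by fun_prop) (by fun_prop) ?_ b rfl
    funext t
    simp only [Function.comp_apply, Subtype.mk.injEq, exp_sub, h]
    rw [div_self (exp_ne_zero _), div_self (exp_ne_zero _)]
  have := congrFun key a
  linear_combination this

/-- The variation of the logarithm of `z` along a singular `1`-simplex. -/
noncomputable def logCocycle (z : C(X, ℂ)) (hz : ∀ x, z x ≠ 0) : Cochain ℂ X 1 := fun σ =>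
  (exists_log_lift (z.comp σ) (fun _ => hz _)).choose (stdSimplex.vertex 1) -
    (exists_log_lift (z.comp σ) (fun _ => hz _)).choose (stdSimplex.vertex 0)

theorem logCocycle_eq (z : C(X, ℂ)) (hz : ∀ x, z x ≠ 0) (σ : SingSimplex X 1)
    (F : C(stdSimplex ℝ (Fin 2), ℂ)) (hF : ∀ t, exp (F t) = z (σ t)) :
    logCocycle z hz σ = F (stdSimplex.vertex 1) - F (stdSimplex.vertex 0) := by
  unfold logCocycle
  apply log_lift_diff
  intro t
  rw [(exists_log_lift (z.comp σ) (fun _ => hz _)).choose_spec t, hF]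
  rfl

theorem coboundary_logCocycle (z : C(X, ℂ)) (hz : ∀ x, z x ≠ 0) :
    coboundary (logCocycle z hz) = 0 := by
  funext σ
  obtain ⟨F, hF⟩ := exists_log_lift (z.comp σ) (fun _ => hz _)
  have h : ∀ φ : Fin 2 → Fin 3, logCocycle z hz (face σ φ) =
      F (stdSimplex.vertex (φ 1)) - F (stdSimplex.vertex (φ 0)) := by
    intro φ
    rw [logCocycle_eq z hz _ (F.comp ⟨stdSimplex.map φ, stdSimplex.continuous_map φ⟩)]
    · simp only [ContinuousMap.comp_apply, ContinuousMap.coe_mk, stdSimplex.map_vertex]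
    · intro t
      exact hF _
  simp only [coboundary, h, Pi.zero_apply]
  rw [Fin.sum_univ_three]
  have e1 : (0 : Fin 3).succAbove 1 = 2 := rfl
  have e2 : (0 : Fin 3).succAbove 0 = 1 := rfl
  have e3 : (1 : Fin 3).succAbove 1 = 2 := rfl
  have e4 : (1 : Fin 3).succAbove 0 = 0 := rfl
  have e5 : (2 : Fin 3).succAbove 1 = 1 := rfl
  have e6 : (2 : Fin 3).succAbove 0 = 0 := rfl
  rw [e1, e2, e3, e4, e5, e6]
  simp

variable {l : ℕ}

/-- The image under `s` of the affine simplex with vertices `v`. -/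
noncomputable def aff (s : C(Fin l → ℝ, X)) {n : ℕ} (v : Fin (n + 1) → Fin l → ℝ) :
    SingSimplex X n :=
  s.comp ⟨fun t => ∑ i, (t : Fin (n + 1) → ℝ) i • v i, by
    refine continuous_finsetSum _ fun i _ => ?_
    exact ((continuous_apply i).comp continuous_subtype_val).smul continuous_const⟩

theorem face_aff (s : C(Fin l → ℝ, X)) {p n : ℕ} (v : Fin (n + 1) → Fin l → ℝ)
    (φ : Fin (p + 1) → Fin (n + 1)) : face (aff s v) φ = aff s (v ∘ φ) := by
  classical
  ext t
  simp only [face, aff, ContinuousMap.comp_apply, ContinuousMap.coe_mk]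
  congr 1
  simp only [stdSimplex.map_coe, FunOnFinite.linearMap_apply_apply, Finset.sum_smul,
    Function.comp_apply]
  rw [← Finset.sum_fiberwise Finset.univ φ]
  refine Finset.sum_congr rfl fun i _ => Finset.sum_congr rfl fun k hk => ?_
  rw [(Finset.mem_filter.1 hk).2]

theorem aff_add (s : C(Fin l → ℝ, X)) {n : ℕ} (v : Fin (n + 1) → Fin l → ℝ) (e : Fin l → ℝ)
    (he : ∀ θ, s (θ + e) = s θ) : aff s (fun i => v i + e) = aff s v := by
  ext t
  simp only [aff, ContinuousMap.comp_apply, ContinuousMap.coe_mk, smul_add,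
    Finset.sum_add_distrib, ← Finset.sum_smul, stdSimplex.sum_eq_one, one_smul, he]

theorem logCocycle_aff (s : C(Fin l → ℝ, X)) (z : C(X, ℂ)) (hz : ∀ x, z x ≠ 0) (j : Fin l)
    (ρ c : ℂ) (hs : ∀ θ, z (s θ) = exp (ρ + c * θ j)) (v : Fin 2 → Fin l → ℝ) :
    logCocycle z hz (aff s v) = c * (v 1 j - v 0 j) := by
  rw [logCocycle_eq z hz _ ⟨fun t => ρ + c * ((∑ i, (t : Fin 2 → ℝ) i • v i) j : ℝ), by
    refine continuous_const.add (continuous_const.mul (continuous_ofReal.comp ?_))
    refine (continuous_apply j).comp (continuous_finsetSum _ fun i _ => ?_)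
    exact ((continuous_apply i).comp continuous_subtype_val).smul continuous_const⟩]
  · simp
    ring
  · intro t
    simp only [aff, ContinuousMap.comp_apply, ContinuousMap.coe_mk, hs]

/-- Evaluation of a graded cochain on the affine simplex with vertices `v 0, v 1, …`. -/
noncomputable def evalN (s : C(Fin l → ℝ, X)) (c : Σ n : ℕ, Cochain ℂ X n)
    (v : ℕ → Fin l → ℝ) : ℂ :=
  c.2 (aff s fun i : Fin (c.1 + 1) => v i)

theorem cupList_ofFn_fst {n : ℕ} (a : Fin n → Cochain ℂ X 1) :
    (cupList (List.ofFn fun k => (⟨1, a k⟩ : Σ n : ℕ, Cochain ℂ X n))).1 = n := by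
  induction n with
  | zero => rfl
  | succ n ih =>
    rw [List.ofFn_succ]
    simp only [cupList]
    rw [ih]
    omega

theorem evalN_cupList (s : C(Fin l → ℝ, X)) {n : ℕ} (a : Fin n → Cochain ℂ X 1)
    (v : ℕ → Fin l → ℝ) :
    evalN s (cupList (List.ofFn fun k => (⟨1, a k⟩ : Σ n : ℕ, Cochain ℂ X n))) v =
      ∏ k : Fin n, a k (aff s ![v k, v (k + 1)]) := by
  induction n generalizing v with
  | zero =>
    rw [List.ofFn_zero]
    simp [evalN, cupList]
  | succ n ih =>
    rw [List.ofFn_succ, Fin.prod_univ_succ]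
    have := ih (fun k => a k.succ) (fun k => v (k + 1))
    simp only [evalN, cupList, cup, face_aff] at this ⊢
    refine congrArg₂ (· * ·) ?_ ?_
    · congr 2
      funext i
      fin_cases i <;> rfl
    · refine Eq.trans ?_ this
      refine congrArg _ (congrArg (aff s) ?_)
      funext i
      simp [add_comm]

/-- The vertices of the simplex of the cube attached to a permutation. -/
def vert (π : Equiv.Perm (Fin l)) (i : ℕ) : Fin l → ℝ :=
  fun j => if (π.symm j : ℕ) < i then 1 else 0

theorem sum_inner_face {n : ℕ} (B : (Fin (n + 1) → Fin (n + 1) → ℝ) → ℂ) (i : Fin n) :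
    ∑ π : Equiv.Perm (Fin (n + 1)), ((Equiv.Perm.sign π : ℤ) : ℂ) *
      B (fun k => vert π ((i.castSucc.succ).succAbove k : ℕ)) = 0 := by
  classical
  set τ : Equiv.Perm (Fin (n + 1)) := Equiv.swap i.castSucc i.succ with hτ
  have hne : i.castSucc ≠ i.succ := (Fin.castSucc_lt_succ).ne
  have h1 : ∀ π : Equiv.Perm (Fin (n + 1)),
      (fun k : Fin (n + 1) => vert (π * τ) ((i.castSucc.succ).succAbove k : ℕ)) =
        fun k => vert π ((i.castSucc.succ).succAbove k : ℕ) := by
    intro π
    funext k j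
    have hk : ((i.castSucc.succ).succAbove k : ℕ) ≠ i + 1 := by
      intro h
      apply Fin.succAbove_ne i.castSucc.succ k
      ext
      simpa using h
    simp only [vert]
    have : ((π * τ).symm j) = τ (π.symm j) := by
      rw [Equiv.symm_apply_eq]
      simp [hτ]
    rw [this]
    generalize π.symm j = y
    generalize ((i.castSucc.succ).succAbove k : ℕ) = r at hk
    congr 1
    rw [hτ, Equiv.swap_apply_def]
    split_ifs with h2 h3
    · subst h2
      simp only [Fin.val_succ, Fin.val_castSucc, eq_iff_iff]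
      omega
    · subst h3
      simp only [Fin.val_succ, Fin.val_castSucc, eq_iff_iff]
      omega
    · rfl
  set S := ∑ π : Equiv.Perm (Fin (n + 1)), ((Equiv.Perm.sign π : ℤ) : ℂ) *
      B (fun k => vert π ((i.castSucc.succ).succAbove k : ℕ)) with hS
  have h2 : S = -S := by
    conv_lhs => rw [hS, ← Equiv.sum_comp (Equiv.mulRight τ)]
    rw [hS, ← Finset.sum_neg_distrib]
    refine Finset.sum_congr rfl fun π _ => ?_
    simp only [Equiv.coe_mulRight, h1]
    rw [Equiv.Perm.sign_mul, hτ, Equiv.Perm.sign_swap hne]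
    simp
  linear_combination (1 / 2 : ℂ) * h2

theorem sum_outer_faces {n : ℕ} (B : (Fin (n + 1) → Fin (n + 1) → ℝ) → ℂ)
    (hB : ∀ (v : Fin (n + 1) → Fin (n + 1) → ℝ) (j : Fin (n + 1)),
      B (fun k => v k + Pi.single j 1) = B v) :
    ∑ π : Equiv.Perm (Fin (n + 1)), ((Equiv.Perm.sign π : ℤ) : ℂ) *
      B (fun k => vert π (k + 1 : ℕ)) =
    (-1) ^ n * ∑ π : Equiv.Perm (Fin (n + 1)), ((Equiv.Perm.sign π : ℤ) : ℂ) *
      B (fun k => vert π (k : ℕ)) := by
  classical
  rw [← Equiv.sum_comp (Equiv.mulRight (finRotate (n + 1))) (fun π =>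
    ((Equiv.Perm.sign π : ℤ) : ℂ) * B (fun k => vert π (k : ℕ))), Finset.mul_sum]
  refine Finset.sum_congr rfl fun π _ => ?_
  have h1 : (fun k : Fin (n + 1) => vert π (k + 1 : ℕ)) =
      fun k : Fin (n + 1) => vert (π * finRotate (n + 1)) (k : ℕ) + Pi.single (π 0) 1 := by
    funext k j
    obtain ⟨y, rfl⟩ := (π * finRotate (n + 1)).surjective j
    simp only [vert, Equiv.symm_apply_apply, Pi.add_apply, Equiv.Perm.coe_mul,
      Function.comp_apply, Pi.single_apply, EmbeddingLike.apply_eq_iff_eq]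
    have hsym : (π * finRotate (n + 1)).symm (π (finRotate (n + 1) y)) = y := by
      rw [Equiv.symm_apply_eq]
      rfl
    rw [hsym]
    have hk := k.2
    refine Fin.lastCases ?_ (fun y' => ?_) y
    · rw [finRotate_last]
      simp
      omega
    · rw [finRotate_apply, Fin.coeSucc_eq_succ]
      simp [Fin.succ_ne_zero]
  rw [h1, hB]
  simp only [Equiv.coe_mulRight, Equiv.Perm.sign_mul, sign_finRotate]
  push_cast
  rw [← mul_assoc, mul_comm ((-1 : ℂ) ^ n), mul_assoc _ _ ((-1 : ℂ) ^ n), ← mul_pow]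
  simp

theorem sum_evalN_coboundary (s : C(Fin l → ℝ, X))
    (hs : ∀ θ j, s (θ + Pi.single j 1) = s θ) (c : Σ n : ℕ, Cochain ℂ X n)
    (hc : IsCoboundary c.2) (hl : c.1 = l) :
    ∑ π : Equiv.Perm (Fin l), ((Equiv.Perm.sign π : ℤ) : ℂ) * evalN s c (vert π) = 0 := by
  obtain ⟨d, c⟩ := c
  cases d with
  | zero =>
    simp only [IsCoboundary] at hc
    simp [evalN, hc]
  | succ n =>
    obtain ⟨b, rfl⟩ := hc
    simp only at hl
    subst hl
    simp only [evalN, coboundary, face_aff, Finset.mul_sum]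
    rw [Finset.sum_comm, Fin.sum_univ_succ, Fin.sum_univ_castSucc]
    have h0 := sum_outer_faces (fun v => b (aff s v)) (fun v j => by
      rw [aff_add s v _ (fun θ => hs θ j)])
    have h1 := fun i => sum_inner_face (fun v => b (aff s v)) i
    have h2 : ∀ i : Fin n, ∑ π : Equiv.Perm (Fin (n + 1)), ((Equiv.Perm.sign π : ℤ) : ℂ) *
        ((-1) ^ ((i.castSucc.succ : Fin (n + 2)) : ℕ) * b (aff s ((fun k : Fin (n + 1 + 1) =>
          vert π (k : ℕ)) ∘ (i.castSucc.succ : Fin (n + 2)).succAbove))) = 0 := by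
      intro i
      have := h1 i
      calc _ = (-1) ^ ((i.castSucc.succ : Fin (n + 2)) : ℕ) *
            ∑ π : Equiv.Perm (Fin (n + 1)), ((Equiv.Perm.sign π : ℤ) : ℂ) *
            b (aff s (fun k => vert π ((i.castSucc.succ).succAbove k : ℕ))) := by
            rw [Finset.mul_sum]
            refine Finset.sum_congr rfl fun π _ => ?_
            rw [mul_left_comm]
            rfl
        _ = 0 := by rw [this, mul_zero]
    rw [Finset.sum_congr rfl fun i _ => h2 i]
    have h3 : ∀ π : Equiv.Perm (Fin (n + 1)), ((fun k : Fin (n + 1 + 1) => vert π (k : ℕ)) ∘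
        (0 : Fin (n + 2)).succAbove) = fun k : Fin (n + 1) => vert π (k + 1 : ℕ) := by
      intro π
      funext k
      simp
    have h4 : ∀ π : Equiv.Perm (Fin (n + 1)), ((fun k : Fin (n + 1 + 1) => vert π (k : ℕ)) ∘
        ((Fin.last n).succ : Fin (n + 2)).succAbove) = fun k : Fin (n + 1) => vert π (k : ℕ) := by
      intro π
      funext k
      simp [Fin.succ_last]
    simp only [h3, h4, Fin.val_zero, pow_zero, one_mul, Finset.sum_const_zero, zero_add,
      Fin.val_succ, Fin.val_last]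
    rw [h0, Finset.mul_sum, ← Finset.sum_add_distrib]
    refine Finset.sum_eq_zero fun π _ => ?_
    ring

theorem cupLengthAtLeast_of_torus (z : Fin l → C(X, ℂ)) (hz : ∀ j x, z j x ≠ 0)
    (s : C(Fin l → ℝ, X)) (hs : ∀ θ j, s (θ + Pi.single j 1) = s θ) (ρ : Fin l → ℂ) (c : ℂ)
    (hc : c ≠ 0) (hzs : ∀ j θ, z j (s θ) = exp (ρ j + c * θ j)) :
    CupLengthAtLeast ℂ X l := by
  classical
  refine ⟨List.ofFn fun k => (⟨1, logCocycle (z k) (hz k)⟩ : Σ n : ℕ, Cochain ℂ X n),
    List.length_ofFn, ?_, ?_⟩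
  · intro a ha
    obtain ⟨k, rfl⟩ := (List.mem_ofFn' _ _).1 ha
    exact ⟨Nat.one_pos, coboundary_logCocycle (z k) (hz k)⟩
  · intro h
    have := sum_evalN_coboundary s hs _ h (cupList_ofFn_fst _)
    simp only [evalN_cupList, logCocycle_aff s _ _ _ _ _ (hzs _)] at this
    rw [Finset.sum_eq_single 1] at this
    · have h1 : (Equiv.symm (1 : Equiv.Perm (Fin l))) = 1 := rfl
      simp [vert, hc, h1] at this
    · intro π _ hπ
      obtain ⟨k, hk⟩ : ∃ k, π.symm k ≠ k := by
        by_contra hh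
        push Not at hh
        apply hπ
        ext k
        have := hh (π k)
        simp at this
        rw [← this]
        rfl
      rw [Finset.prod_eq_zero (Finset.mem_univ k), mul_zero]
      have hk' : (π.symm k : ℕ) ≠ k := fun h => hk (Fin.ext h)
      simp only [vert, Matrix.cons_val_one, Matrix.cons_val_zero]
      split_ifs <;> first | omega | simp
    · simp

end Pool.Agent.Lib.MP_ecbb26_gt
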