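import Pool.Agent.Lib.MP_ecbb26_gt.LevelSet
import Pool.Agent.Lib.MP_ecbb26_gt.Torus

/-!
The hypersurface `∑ (|z_j|² - a)² = a² / 4` in `ℂ^l = ℝ^(2l)`, a tube around the Clifford torus,
diffeomorphic to `T^l × S^(l-1)`.
-/

open scoped Manifold ContDiff ENNReal Topology

namespace Pool.Agent.Lib.MP_ecbb26_gt

open Set Function

variable {l m : ℕ} (ι : Fin l ⊕ Fin l ≃ Fin (m + 1)) (a : ℝ)

/-- `|z_j|² - a`. -/
def sj (j : Fin l) (x : EuclideanSpace ℝ (Fin (m + 1))) : ℝ :=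
  x (ι (Sum.inl j)) ^ 2 + x (ι (Sum.inr j)) ^ 2 - a

/-- The defining function of the tube. -/
def tubeF (x : EuclideanSpace ℝ (Fin (m + 1))) : ℝ := ∑ j, sj ι a j x ^ 2

/-- The differential of `sj`. -/
noncomputable def Tj (j : Fin l) (x : EuclideanSpace ℝ (Fin (m + 1))) :
    EuclideanSpace ℝ (Fin (m + 1)) →L[ℝ] ℝ :=
  (2 * x (ι (Sum.inl j))) • EuclideanSpace.proj (ι (Sum.inl j)) +
    (2 * x (ι (Sum.inr j))) • EuclideanSpace.proj (ι (Sum.inr j))

theorem hasFDerivAt_coord (i : Fin (m + 1)) (x : EuclideanSpace ℝ (Fin (m + 1))) :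
    HasFDerivAt (fun y : EuclideanSpace ℝ (Fin (m + 1)) => y i)
      (EuclideanSpace.proj i : EuclideanSpace ℝ (Fin (m + 1)) →L[ℝ] ℝ) x :=
  (EuclideanSpace.proj i : EuclideanSpace ℝ (Fin (m + 1)) →L[ℝ] ℝ).hasFDerivAt

theorem hasFDerivAt_sj (j : Fin l) (x : EuclideanSpace ℝ (Fin (m + 1))) :
    HasFDerivAt (sj ι a j) (Tj ι j x) x := by
  have := (((hasFDerivAt_coord (ι (Sum.inl j)) x).pow 2).add
    ((hasFDerivAt_coord (ι (Sum.inr j)) x).pow 2)).sub_const a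
  refine HasFDerivAt.congr_fderiv this ?_
  simp [Tj]

theorem fderiv_tubeF : fderiv ℝ (tubeF ι a) = fun x => ∑ j, (2 * sj ι a j x) • Tj ι j x := by
  funext x
  have := HasFDerivAt.fun_sum (u := Finset.univ) fun j _ => (hasFDerivAt_sj ι a j x).pow 2
  refine HasFDerivAt.fderiv ?_
  refine HasFDerivAt.congr_fderiv this ?_
  simp

theorem contDiff_tubeF : ContDiff ℝ ∞ (tubeF ι a) := by
  unfold tubeF sj
  fun_prop

theorem fderiv_tubeF_apply (x w : EuclideanSpace ℝ (Fin (m + 1))) :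
    fderiv ℝ (tubeF ι a) x w = ∑ j, 4 * sj ι a j x *
      (x (ι (Sum.inl j)) * w (ι (Sum.inl j)) + x (ι (Sum.inr j)) * w (ι (Sum.inr j))) := by
  rw [fderiv_tubeF]
  simp only [FunLike.coe_sum, Finset.sum_apply, Tj]
  refine Finset.sum_congr rfl fun j _ => ?_
  simp
  ring

theorem fderiv2_tubeF_apply (x w : EuclideanSpace ℝ (Fin (m + 1))) :
    fderiv ℝ (fderiv ℝ (tubeF ι a)) x w w = ∑ j,
      (8 * (x (ι (Sum.inl j)) * w (ι (Sum.inl j)) + x (ι (Sum.inr j)) * w (ι (Sum.inr j))) ^ 2 +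
        4 * sj ι a j x * (w (ι (Sum.inl j)) ^ 2 + w (ι (Sum.inr j)) ^ 2)) := by
  rw [fderiv_tubeF]
  have hT := fun j : Fin l =>
    (((hasFDerivAt_coord (ι (Sum.inl j)) x).const_mul 2).smul_const
      (EuclideanSpace.proj (ι (Sum.inl j)) : EuclideanSpace ℝ (Fin (m + 1)) →L[ℝ] ℝ)).add
    (((hasFDerivAt_coord (ι (Sum.inr j)) x).const_mul 2).smul_const
      (EuclideanSpace.proj (ι (Sum.inr j)) : EuclideanSpace ℝ (Fin (m + 1)) →L[ℝ] ℝ))
  have := HasFDerivAt.fun_sum (u := Finset.univ) fun j _ =>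
    ((hasFDerivAt_sj ι a j x).const_mul 2).smul (hT j)
  have h2 := this.fderiv
  erw [h2]
  simp only [FunLike.coe_sum, Finset.sum_apply, Tj]
  refine Finset.sum_congr rfl fun j _ => ?_
  simp
  ring

theorem norm_sq_eq_sum (w : EuclideanSpace ℝ (Fin (m + 1))) :
    ‖w‖ ^ 2 = ∑ j, (w (ι (Sum.inl j)) ^ 2 + w (ι (Sum.inr j)) ^ 2) := by
  rw [EuclideanSpace.real_norm_sq_eq, ← Equiv.sum_comp ι, Fintype.sum_sum_type,
    Finset.sum_add_distrib]

variable {ι a}

theorem abs_sj_le (ha : 0 < a) {x : EuclideanSpace ℝ (Fin (m + 1))} (hx : tubeF ι a x = a ^ 2 / 4)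
    (j : Fin l) : |sj ι a j x| ≤ a / 2 := by
  have : sj ι a j x ^ 2 ≤ (a / 2) ^ 2 := by
    have h := Finset.single_le_sum (f := fun j => sj ι a j x ^ 2) (fun _ _ => sq_nonneg _)
      (Finset.mem_univ j)
    unfold tubeF at hx
    rw [hx] at h
    linarith
  exact abs_le_of_sq_le_sq' this (by positivity) |> abs_le.2

theorem norm_fderiv_tubeF (ha : 0 < a) {x : EuclideanSpace ℝ (Fin (m + 1))}
    (hx : tubeF ι a x = a ^ 2 / 4) : 2 * a ^ 3 ≤ ‖fderiv ℝ (tubeF ι a) x‖ ^ 2 := by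
  let g : EuclideanSpace ℝ (Fin (m + 1)) := WithLp.toLp 2 fun i =>
    Sum.elim (fun j => sj ι a j x * x (ι (Sum.inl j))) (fun j => sj ι a j x * x (ι (Sum.inr j)))
      (ι.symm i)
  have h1 : ‖g‖ ^ 2 = ∑ j, sj ι a j x ^ 2 * (sj ι a j x + a) := by
    rw [norm_sq_eq_sum ι]
    refine Finset.sum_congr rfl fun j _ => ?_
    simp only [g, Equiv.symm_apply_apply, Sum.elim_inl, Sum.elim_inr]
    have : sj ι a j x + a = x (ι (Sum.inl j)) ^ 2 + x (ι (Sum.inr j)) ^ 2 := by simp [sj]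
    rw [this]
    ring
  have h2 : fderiv ℝ (tubeF ι a) x g = 4 * ‖g‖ ^ 2 := by
    rw [h1, fderiv_tubeF_apply, Finset.mul_sum]
    refine Finset.sum_congr rfl fun j _ => ?_
    simp only [g, Equiv.symm_apply_apply, Sum.elim_inl, Sum.elim_inr]
    have : sj ι a j x + a = x (ι (Sum.inl j)) ^ 2 + x (ι (Sum.inr j)) ^ 2 := by simp [sj]
    rw [this]
    ring
  have h3 : a ^ 3 / 8 ≤ ‖g‖ ^ 2 := by
    rw [h1]
    calc a ^ 3 / 8 = (∑ j, sj ι a j x ^ 2) * (a / 2) := by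
          unfold tubeF at hx
          rw [hx]
          ring
      _ = ∑ j, sj ι a j x ^ 2 * (a / 2) := Finset.sum_mul _ _ _
      _ ≤ _ := Finset.sum_le_sum fun j _ => by
          have := (abs_le.1 (abs_sj_le ha hx j)).1
          exact mul_le_mul_of_nonneg_left (by linarith) (sq_nonneg _)
  have h4 := (fderiv ℝ (tubeF ι a) x).le_opNorm g
  rw [h2, Real.norm_eq_abs, abs_of_nonneg (by positivity)] at h4
  have hg : 0 < ‖g‖ := by
    have : 0 < ‖g‖ ^ 2 := lt_of_lt_of_le (by positivity) h3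
    exact lt_of_le_of_ne (norm_nonneg _) fun h => by simp [← h] at this
  have h5 : 4 * ‖g‖ ≤ ‖fderiv ℝ (tubeF ι a) x‖ := by
    refine le_of_mul_le_mul_right ?_ hg
    nlinarith
  nlinarith [norm_nonneg g]

theorem fderiv_tubeF_ne_zero (ha : 0 < a) (x : EuclideanSpace ℝ (Fin (m + 1)))
    (hx : tubeF ι a x = a ^ 2 / 4) : fderiv ℝ (tubeF ι a) x ≠ 0 := by
  intro h
  have := norm_fderiv_tubeF ha hx
  rw [h, norm_zero] at this
  have : 0 < a ^ 3 := by positivity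
  linarith

theorem hessian_bound (ha : 0 < a) {κ : ℝ} (hκ : 0 ≤ κ) (hκa : 98 ≤ κ ^ 2 * a)
    (x : EuclideanSpace ℝ (Fin (m + 1))) (hx : tubeF ι a x = a ^ 2 / 4)
    (w : EuclideanSpace ℝ (Fin (m + 1))) :
    |fderiv ℝ (fderiv ℝ (tubeF ι a)) x w w| ≤ κ * ‖fderiv ℝ (tubeF ι a) x‖ * ‖w‖ ^ 2 := by
  have h1 : 14 * a ≤ κ * ‖fderiv ℝ (tubeF ι a) x‖ := by
    refine (abs_le_of_sq_le_sq' ?_ (by positivity)).2
    have := norm_fderiv_tubeF ha hx
    calc (14 * a) ^ 2 = 98 * (2 * a ^ 2) := by ring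
      _ ≤ κ ^ 2 * a * (2 * a ^ 2) := by gcongr
      _ = κ ^ 2 * (2 * a ^ 3) := by ring
      _ ≤ κ ^ 2 * ‖fderiv ℝ (tubeF ι a) x‖ ^ 2 := by gcongr
      _ = _ := by ring
  refine le_trans ?_ (mul_le_mul_of_nonneg_right h1 (sq_nonneg _))
  rw [fderiv2_tubeF_apply, norm_sq_eq_sum ι, Finset.mul_sum]
  refine (Finset.abs_sum_le_sum_abs _ _).trans (Finset.sum_le_sum fun j _ => ?_)
  obtain ⟨h2, h3⟩ := abs_le.1 (abs_sj_le ha hx j)
  have h4 : sj ι a j x + a = x (ι (Sum.inl j)) ^ 2 + x (ι (Sum.inr j)) ^ 2 := by simp [sj]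
  generalize sj ι a j x = s at *
  generalize x (ι (Sum.inl j)) = x1 at *
  generalize x (ι (Sum.inr j)) = x2 at *
  generalize w (ι (Sum.inl j)) = w1 at *
  generalize w (ι (Sum.inr j)) = w2 at *
  have h5 : (x1 * w1 + x2 * w2) ^ 2 ≤ (s + a) * (w1 ^ 2 + w2 ^ 2) := by
    rw [h4]
    nlinarith [sq_nonneg (x1 * w2 - x2 * w1)]
  have h6 : 0 ≤ w1 ^ 2 + w2 ^ 2 := by positivity
  generalize w1 ^ 2 + w2 ^ 2 = n at *
  have h7 := sq_nonneg (x1 * w1 + x2 * w2)
  generalize (x1 * w1 + x2 * w2) ^ 2 = q at *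
  rw [abs_le]
  constructor <;> nlinarith [mul_nonneg h6 (sub_nonneg.2 h2), mul_nonneg h6 (sub_nonneg.2 h3),
    mul_nonneg h6 ha.le]

theorem norm_le_one (ha : 0 < a) (hal : (l : ℝ) * (3 * a / 2) ≤ 1)
    {x : EuclideanSpace ℝ (Fin (m + 1))} (hx : tubeF ι a x = a ^ 2 / 4) : ‖x‖ ≤ 1 := by
  have : ‖x‖ ^ 2 ≤ 1 ^ 2 := by
    rw [norm_sq_eq_sum ι]
    calc _ ≤ ∑ _j : Fin l, 3 * a / 2 := Finset.sum_le_sum fun j _ => by
          have h3 := (abs_le.1 (abs_sj_le ha hx j)).2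
          have h4 : sj ι a j x + a = x (ι (Sum.inl j)) ^ 2 + x (ι (Sum.inr j)) ^ 2 := by simp [sj]
          linarith
      _ ≤ _ := by simpa using hal
  exact (abs_le_of_sq_le_sq' this zero_le_one).2

theorem compactSpace_tube (ha : 0 < a) (hal : (l : ℝ) * (3 * a / 2) ≤ 1) :
    CompactSpace {x // tubeF ι a x = a ^ 2 / 4} := by
  refine isCompact_iff_compactSpace.1 (Metric.isCompact_of_isClosed_isBounded
    (isClosed_eq (contDiff_tubeF ι a).continuous continuous_const) ?_)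
  exact (Metric.isBounded_closedBall (x := 0) (r := 1)).subset fun x hx => by
    simpa using norm_le_one ha hal hx

variable (ι)

/-- The point with polar coordinates `r, θ`. -/
noncomputable def pt (r θ : Fin l → ℝ) : EuclideanSpace ℝ (Fin (m + 1)) :=
  WithLp.toLp 2 fun i =>
    Sum.elim (fun j => r j * Real.cos (θ j)) (fun j => r j * Real.sin (θ j)) (ι.symm i)

theorem continuous_pt : Continuous fun p : (Fin l → ℝ) × (Fin l → ℝ) => pt ι p.1 p.2 := by
  refine (PiLp.continuous_toLp 2 _).comp (continuous_pi fun i => ?_)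
  rcases ι.symm i with j | j
  · simp only [Sum.elim_inl]
    fun_prop
  · simp only [Sum.elim_inr]
    fun_prop

theorem sj_pt (r θ : Fin l → ℝ) (j : Fin l) : sj ι a j (pt ι r θ) = r j ^ 2 - a := by
  simp only [sj, pt, Equiv.symm_apply_apply, Sum.elim_inl, Sum.elim_inr]
  linear_combination r j ^ 2 * Real.cos_sq_add_sin_sq (θ j)

variable {ι}

theorem tubeF_pt (ha : 0 < a) (u : EuclideanSpace ℝ (Fin l)) (hu : ‖u‖ = 1) (θ : Fin l → ℝ) :
    tubeF ι a (pt ι (fun j => √(a + a / 2 * u j)) θ) = a ^ 2 / 4 := by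
  have h1 : ∀ j, |u j| ≤ 1 := fun j => by
    have := PiLp.norm_apply_le u j
    rwa [hu] at this
  have h2 : ∑ j, u j ^ 2 = 1 := by rw [← EuclideanSpace.real_norm_sq_eq, hu, one_pow]
  unfold tubeF
  calc _ = ∑ j, a ^ 2 / 4 * u j ^ 2 := Finset.sum_congr rfl fun j _ => by
        rw [sj_pt, Real.sq_sqrt (by nlinarith [(abs_le.1 (h1 j)).1])]
        ring
    _ = _ := by rw [← Finset.mul_sum, h2, mul_one]

theorem connectedSpace_tube (ha : 0 < a) (hl : 2 ≤ l) :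
    ConnectedSpace {x // tubeF ι a x = a ^ 2 / 4} := by
  have hS : IsConnected (Metric.sphere (0 : EuclideanSpace ℝ (Fin l)) 1) :=
    isConnected_sphere (by
      rw [← Module.finrank_eq_rank]
      simpa using Nat.lt_of_succ_le hl) _ zero_le_one
  have := isConnected_iff_connectedSpace.1 hS
  let Ψ : Metric.sphere (0 : EuclideanSpace ℝ (Fin l)) 1 × (Fin l → ℝ) →
      {x // tubeF ι a x = a ^ 2 / 4} := fun p =>
    ⟨pt ι (fun j => √(a + a / 2 * p.1.1 j)) p.2, tubeF_pt ha _ (mem_sphere_zero_iff_norm.1 p.1.2) _⟩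
  have hΨ : Continuous Ψ := by
    refine Continuous.subtype_mk ?_ _
    refine (continuous_pt ι).comp (f := fun p : Metric.sphere (0 : EuclideanSpace ℝ (Fin l)) 1 ×
      (Fin l → ℝ) => ((fun j => √(a + a / 2 * p.1.1 j)), p.2)) ?_
    fun_prop
  refine Surjective.connectedSpace (f := Ψ) ?_ hΨ
  rintro ⟨x, hx⟩
  let u : EuclideanSpace ℝ (Fin l) := WithLp.toLp 2 fun j => 2 / a * sj ι a j x
  have hu : ‖u‖ = 1 := by
    have : ‖u‖ ^ 2 = 1 ^ 2 := by
      rw [EuclideanSpace.real_norm_sq_eq]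
      unfold tubeF at hx
      calc _ = ∑ j, 4 / a ^ 2 * sj ι a j x ^ 2 := Finset.sum_congr rfl fun j _ => by
            simp only [u]
            ring
        _ = _ := by
            rw [← Finset.mul_sum, hx]
            field_simp
    exact (pow_left_inj₀ (norm_nonneg _) zero_le_one two_ne_zero).1 this
  let z : Fin l → ℂ := fun j => ⟨x (ι (Sum.inl j)), x (ι (Sum.inr j))⟩
  refine ⟨(⟨u, by simpa using hu⟩, fun j => Complex.arg (z j)), Subtype.ext ?_⟩
  have hr : ∀ j, √(a + a / 2 * u j) = ‖z j‖ := fun j => by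
    rw [Complex.norm_eq_sqrt_sq_add_sq]
    congr 1
    simp only [u, z, sj]
    field_simp
    ring
  ext i
  obtain ⟨k, rfl⟩ := ι.surjective i
  simp only [Ψ, pt, hr, Equiv.symm_apply_apply]
  rcases k with j | j
  · simp only [Sum.elim_inl]
    exact Complex.norm_mul_cos_arg (z j)
  · simp only [Sum.elim_inr]
    exact Complex.norm_mul_sin_arg (z j)

theorem cupLength_tube (ha : 0 < a) (hl : 1 ≤ l) :
    CupLengthAtLeast ℂ {x // tubeF ι a x = a ^ 2 / 4} l := by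
  let u : EuclideanSpace ℝ (Fin l) := EuclideanSpace.single ⟨0, hl⟩ 1
  have hu : ‖u‖ = 1 := by simp [u]
  have hu' : ∀ j, 0 ≤ u j := fun j => by
    simp only [u, PiLp.single_apply]
    split_ifs <;> norm_num
  let r : Fin l → ℝ := fun j => √(a + a / 2 * u j)
  have hr : ∀ j, 0 < r j := fun j => Real.sqrt_pos.2 (by have := hu' j; positivity)
  let z : Fin l → C({x // tubeF ι a x = a ^ 2 / 4}, ℂ) := fun j =>
    ⟨fun x => (x.1 (ι (Sum.inl j)) : ℂ) + (x.1 (ι (Sum.inr j)) : ℂ) * Complex.I, by fun_prop⟩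
  let s : C(Fin l → ℝ, {x // tubeF ι a x = a ^ 2 / 4}) :=
    ⟨fun θ => ⟨pt ι r fun j => 2 * Real.pi * θ j, tubeF_pt ha u hu _⟩, by
      refine Continuous.subtype_mk ?_ _
      refine (continuous_pt ι).comp (f := fun θ : Fin l → ℝ => (r, fun j => 2 * Real.pi * θ j)) ?_
      fun_prop⟩
  refine cupLengthAtLeast_of_torus z ?_ s ?_ (fun j => Real.log (r j))
    (2 * Real.pi * Complex.I) Complex.two_pi_I_ne_zero ?_
  · intro j x h
    have h1 : x.1 (ι (Sum.inl j)) = 0 := by simpa [z] using congrArg Complex.re h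
    have h2 : x.1 (ι (Sum.inr j)) = 0 := by simpa [z] using congrArg Complex.im h
    have h3 := (abs_le.1 (abs_sj_le ha x.2 j)).1
    simp only [sj, h1, h2] at h3
    linarith
  · intro θ j
    apply Subtype.ext
    simp only [s, ContinuousMap.coe_mk, pt]
    congr 1
    funext i
    have hc : ∀ k, Real.cos (2 * Real.pi * (θ + Pi.single j 1 : Fin l → ℝ) k) =
        Real.cos (2 * Real.pi * θ k) := fun k => by
      by_cases h : k = j
      · subst h
        simp [mul_add, Real.cos_add_two_pi]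
      · simp [h]
    have hs : ∀ k, Real.sin (2 * Real.pi * (θ + Pi.single j 1 : Fin l → ℝ) k) =
        Real.sin (2 * Real.pi * θ k) := fun k => by
      by_cases h : k = j
      · subst h
        simp [mul_add, Real.sin_add_two_pi]
      · simp [h]
    simp only [hc, hs]
  · intro j θ
    simp only [z, s, ContinuousMap.coe_mk, pt, Equiv.symm_apply_apply, Sum.elim_inl, Sum.elim_inr]
    rw [Complex.exp_add, ← Complex.ofReal_exp, Real.exp_log (hr j),
      show 2 * (Real.pi : ℂ) * Complex.I * (θ j : ℂ) = ((2 * Real.pi * θ j : ℝ) : ℂ) * Complex.I by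
        push_cast; ring, Complex.exp_mul_I]
    push_cast
    ring

end Pool.Agent.Lib.MP_ecbb26_gt
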