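import Pool.Agent.Lib.MP_ecbb26_gt.Tube

/-! The tube of bounded curvature, and the negated form of Q1. -/

set_option autoImplicit false

open scoped Manifold ContDiff ENNReal

namespace Pool.Agent.Lib.MP_ecbb26_gt

theorem bounded : ∀ l m : ℕ, 2 ≤ l → 3000 * (l : ℝ) * Real.log l ≤ m →
    ∃ (X : Type) (_ : TopologicalSpace X) (_ : ChartedSpace (EuclideanSpace ℝ (Fin m)) X),
      IsManifold (𝓡 m) ∞ X ∧ T2Space X ∧ CompactSpace X ∧ ConnectedSpace X ∧
      (∃ (K : Type) (_ : Field K), CupLengthAtLeast K X l) ∧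
      ∃ f : X → EuclideanSpace ℝ (Fin (m + 1)),
        IsBallImmersion (EuclideanSpace ℝ (Fin m)) f ∧
        normalCurvature (EuclideanSpace ℝ (Fin m)) f ≤ 10 ^ 6 := by
  intro l m hl hm
  have hl2 : (2 : ℝ) ≤ l := by exact_mod_cast hl
  have hlm : l < m := by
    have h : (l : ℝ) < m := by
      nlinarith [Real.log_le_log two_pos hl2, Real.log_two_gt_d9]
    exact_mod_cast h
  obtain ⟨g, h0, hg, hD⟩ := JL.imm hl (by omega) hm
  have hρ : (0 : ℝ) < 1 / 10 ^ 6 := by norm_num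
  obtain ⟨cs, h1, h2, h3, h4⟩ := levelSet_main₂ (JL.contDiff_eqn g)
    ((g.contDiff.comp contDiff_fst).add contDiff_snd) contDiff_snd
    (by simp [Module.finrank_pi_fintype]; omega) hρ
    (fun x hx => ((JL.eqn_iff g hρ x).1 hx).2.2) (JL.tangent g hρ le_rfl hD)
  refine ⟨_, inferInstance, cs, h1, inferInstance, JL.compact g hρ (by norm_num),
    JL.connected g hρ h0 hlm, ⟨ℂ, inferInstance, JL.cupLength g hρ h0⟩, _,
    ⟨h2, h3, fun x => ?_⟩, h4.trans (by norm_num)⟩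
  obtain ⟨h5, -, h6⟩ := (JL.eqn_iff g hρ _).1 x.2
  have h7 := g.unit_le_opNorm ((pi_norm_le_iff_of_nonneg zero_le_one).2 fun j => (h5 j).le)
  exact (norm_add_le_of_le (h7.trans hg) h6.le).trans (by norm_num)

/-- The negated form of Q1 (the case `c = 0.1`), for every constant `c > 0`. -/
theorem not_Q1 (c : ℝ) (hc : 0 < c) : ∃ m k l : ℕ, 1 ≤ m ∧ 1 ≤ k ∧ 1 ≤ l ∧
    ∃ (X : Type) (_ : TopologicalSpace X) (_ : ChartedSpace (EuclideanSpace ℝ (Fin m)) X),
      IsManifold (𝓡 m) ∞ X ∧ T2Space X ∧ CompactSpace X ∧ ConnectedSpace X ∧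
      (∃ (K : Type) (_ : Field K), CupLengthAtLeast K X l) ∧
      ∃ f : X → EuclideanSpace ℝ (Fin (m + k)),
        IsBallImmersion (EuclideanSpace ℝ (Fin m)) f ∧
        normalCurvature (EuclideanSpace ℝ (Fin m)) f <
          ENNReal.ofReal (c * (l : ℝ) ^ 2 / ((m : ℝ) * (k : ℝ))) := by
  obtain ⟨t, ht⟩ := exists_nat_gt (6000 * 10 ^ 6 / c + 2)
  have h0 : 0 < 6000 * 10 ^ 6 / c := by positivity
  have h1 : (2 : ℝ) < t := by linarith
  have h2 : 2 < t := by exact_mod_cast h1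
  have h3 : 6000 * 10 ^ 6 < c * t := (div_lt_iff₀' hc).1 (by linarith)
  obtain ⟨X, _, _, k1, k2, k3, k4, k5, f, k6, k7⟩ := bounded (t ^ 2) (6000 * t ^ 3)
    (by nlinarith) (by
    push_cast
    rw [Real.log_pow, Nat.cast_ofNat]
    nlinarith [mul_le_mul_of_nonneg_left (Real.log_le_self (by positivity : (0 : ℝ) ≤ t))
      (sq_nonneg (t : ℝ))])
  refine ⟨6000 * t ^ 3, 1, t ^ 2, Nat.one_le_iff_ne_zero.2 (by positivity), le_rfl, by nlinarith,
    X, _, _, k1, k2, k3, k4, k5, f, k6, k7.trans_lt ?_⟩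
  rw [show (10 ^ 6 : ℝ≥0∞) = ENNReal.ofReal (10 ^ 6) by norm_num,
    ENNReal.ofReal_lt_ofReal_iff (by positivity), lt_div_iff₀ (by positivity)]
  push_cast
  nlinarith [mul_lt_mul_of_pos_right h3 (by positivity : (0 : ℝ) < (t : ℝ) ^ 3)]

end Pool.Agent.Lib.MP_ecbb26_gt
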