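import Pool.Agent.Lib.MP_ecbb26_gt.JL

/-! A multilinear map on `ℂ^l` whose restriction to the torus has bounded geometry. -/

set_option autoImplicit false

namespace Pool.Agent.Lib.MP_ecbb26_gt.JL

open Finset Complex

variable {l m : ℕ} {V : Type} [NormedAddCommGroup V] [NormedSpace ℝ V]

/-- Multiplication by `u j` rotates the coordinate `j` by a right angle. -/
noncomputable def u (j : Fin l) : Fin l → ℂ := Function.update 1 j I

/-- The derivative along the torus of a function that is linear in each coordinate. -/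
noncomputable def Dv (v : Fin l → ℝ) (h : (Fin l → ℂ) → V) (z : Fin l → ℂ) : V :=
  ∑ j, v j • h (u j * z)

/-- The torus. -/
def T (z : Fin l → ℂ) : Prop := ∀ j, ‖z j‖ = 1

/-- Close points of the torus. -/
def Near (δ : ℝ) (z z' : Fin l → ℂ) : Prop := T z ∧ T z' ∧ ∀ j, ‖z j - z' j‖ ≤ δ

lemma T_u (j : Fin l) : T (u j) := fun i => by
  by_cases h : i = j <;> simp [u, h]

lemma T.u {z : Fin l → ℂ} (h : T z) (j : Fin l) : T (u j * z) := fun i => by
  rw [Pi.mul_apply, norm_mul, T_u, h, one_mul]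

lemma Near.u {δ : ℝ} {z z' : Fin l → ℂ} (h : Near δ z z') (j : Fin l) :
    Near δ (u j * z) (u j * z') := ⟨h.1.u j, h.2.1.u j, fun i => by
  rw [Pi.mul_apply, Pi.mul_apply, ← mul_sub, norm_mul, T_u, one_mul]; exact h.2.2 i⟩

lemma lip {h h' : (Fin l → ℂ) → V} {δ B K : ℝ} {v v' : Fin l → ℝ} (hv : ∀ j, |v j| ≤ 1)
    (hv' : ∀ j, |v j - v' j| ≤ δ) (hδ : δ ≤ 1) (hB : ∀ z, T z → ‖h z‖ ≤ B)
    (hK : ∀ z z', Near δ z z' → ‖h z - h' z'‖ ≤ K) : (∀ z, T z → ‖Dv v h z‖ ≤ l * B) ∧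
      ∀ z z', Near δ z z' → ‖Dv v h z - Dv v' h' z'‖ ≤ l * (δ * B + 2 * K) := by
  have key : ∀ (y : Fin l → V) (c : ℝ), (∀ j, ‖y j‖ ≤ c) → ‖∑ j, y j‖ ≤ l * c := fun y c h =>
    (norm_sum_le _ _).trans ((sum_le_card_nsmul _ _ c fun j _ => h j).trans (by simp))
  refine ⟨fun z hz => key _ _ fun j => ?_, fun z z' hz => ?_⟩
  · rw [norm_smul, ← one_mul B]
    exact mul_le_mul (hv j) (hB _ (hz.u j)) (norm_nonneg _) zero_le_one
  rw [Dv, Dv, ← sum_sub_distrib]
  refine key _ _ fun j => ?_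
  rw [show v j • h (u j * z) - v' j • h' (u j * z') =
    (v j - v' j) • h (u j * z) + v' j • (h (u j * z) - h' (u j * z')) by module]
  refine norm_add_le_of_le ?_ ?_ <;> rw [norm_smul]
  · exact mul_le_mul (hv' j) (hB _ (hz.1.u j)) (norm_nonneg _) ((abs_nonneg _).trans (hv' j))
  · refine mul_le_mul (abs_le.2 ?_) (hK _ _ (hz.u j)) (norm_nonneg _) zero_le_two
    constructor <;> linarith [abs_le.1 (hv j), abs_le.1 (hv' j)]

lemma Dv_smul (t : ℝ) (v : Fin l → ℝ) (h : (Fin l → ℂ) → V) :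
    Dv (fun j => t * v j) h = fun z => t • Dv v h z := by
  ext z
  simp only [Dv, smul_sum, mul_smul]

lemma Dv_map {V' : Type} [NormedAddCommGroup V'] [NormedSpace ℝ V'] (A : V →L[ℝ] V')
    (v : Fin l → ℝ) (h : (Fin l → ℂ) → V) : Dv v (fun z => A (h z)) = fun z => A (Dv v h z) := by
  ext z
  simp only [Dv, map_sum, map_smul]

/-- The identity or the conjugation. -/
noncomputable def cj (b : Bool) : ℂ →L[ℝ] ℂ := if b then .id ℝ ℂ else conjCLE

/-- A character of the torus, as a multilinear map. -/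
noncomputable def ν (a : Fin l → Bool) : ContinuousMultilinearMap ℝ (fun _ : Fin l => ℂ) ℂ :=
  (ContinuousMultilinearMap.mkPiAlgebra ℝ (Fin l) ℂ).compContinuousLinearMap fun j => cj (a j)

lemma ν_u (a : Fin l → Bool) (j : Fin l) (z : Fin l → ℂ) :
    ν a (u j * z) = I * sg (a j) * ν a z := by
  have h : ∀ b x y, cj b (x * y) = cj b x * cj b y := fun b x y => by cases b <;> simp [cj]
  simp only [ν, ContinuousMultilinearMap.compContinuousLinearMap_apply,
    ContinuousMultilinearMap.mkPiAlgebra_apply, Pi.mul_apply, h, prod_mul_distrib]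
  rw [prod_eq_single j (fun i _ hi => by cases a i <;> simp [cj, u, hi]) (by simp)]
  cases a j <;> simp [cj, u, sg]

lemma norm_ν (a : Fin l → Bool) {z : Fin l → ℂ} (h : T z) : ‖ν a z‖ = 1 := by
  simp only [ν, ContinuousMultilinearMap.compContinuousLinearMap_apply,
    ContinuousMultilinearMap.mkPiAlgebra_apply, norm_prod]
  exact prod_eq_one fun j _ => by cases a j <;> simp [cj, h j]

/-- The real or the imaginary part. -/
noncomputable def φ (b : Bool) : ℂ →L[ℝ] ℝ := if b then reCLM else imCLM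

/-- All characters, with coefficients `c`, in real coordinates. -/
noncomputable def W (c : (Fin l → Bool) → ℂ) (z : Fin l → ℂ) (k : (Fin l → Bool) × Bool) : ℝ :=
  φ k.2 (c k.1 * ν k.1 z)

lemma Dv_W (v : Fin l → ℝ) (c : (Fin l → Bool) → ℂ) :
    Dv v (W c) = W fun a => I * X a v * c a := by
  ext z k
  simp only [Dv, W, Finset.sum_apply, Pi.smul_apply, ← map_smul, ← map_sum, ν_u, X, ofReal_sum, mul_sum,
    sum_mul, real_smul, ofReal_mul]
  congr 1
  exact sum_congr rfl fun j _ => by ring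

lemma sum_W (c : (Fin l → Bool) → ℂ) {z : Fin l → ℂ} (h : T z) :
    ∑ k, W c z k ^ 2 = ∑ a, ‖c a‖ ^ 2 := by
  rw [Fintype.sum_prod_type]
  refine sum_congr rfl fun a _ => ?_
  rw [← mul_one ‖c a‖, ← norm_ν a h, ← norm_mul, Complex.sq_norm, normSq_apply]
  simp [W, φ, sq]

/-- The random projection. -/
noncomputable def A {D : Type} [Fintype D] (t : ℝ) (ε : Fin m → D → Bool) :
    (D → ℝ) →L[ℝ] EuclideanSpace ℝ (Fin (m + 1)) :=
  LinearMap.toContinuousLinearMap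
    { toFun := fun w => WithLp.toLp 2 (Fin.cons 0 fun r => t * X (ε r) w)
      map_add' := fun _ _ => by
        ext i
        refine Fin.cases ?_ (fun r => ?_) i <;> simp [X, mul_add, sum_add_distrib]
      map_smul' := fun _ _ => by
        ext i
        refine Fin.cases ?_ (fun r => ?_) i <;> simp [X, mul_sum, mul_left_comm] }

lemma norm_A {D : Type} [Fintype D] (t : ℝ) (ε : Fin m → D → Bool) (w : D → ℝ) :
    ‖A t ε w‖ ^ 2 = t ^ 2 * ∑ r, X (ε r) w ^ 2 := by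
  simp [A, EuclideanSpace.real_norm_sq_eq, Fin.sum_univ_succ, mul_pow, mul_sum]

lemma net {n : ℕ} (hn : 0 < n) (x : Fin l → ℝ) (hx : ∀ j, |x j| ≤ 4) :
    ∃ k : Fin l → Fin (8 * n + 1), ∀ j, |x j - ((k j : ℝ) / n - 4)| ≤ 1 / n := by
  have h0 : (0 : ℝ) < n := by positivity
  have h1 : ∀ j, 0 ≤ (x j + 4) * n := fun j => mul_nonneg (by linarith [abs_le.1 (hx j)]) h0.le
  refine ⟨fun j => ⟨⌊(x j + 4) * n⌋₊, Nat.lt_succ_of_le (Nat.floor_le_of_le ?_)⟩, fun j => ?_⟩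
  · push_cast; gcongr; linarith [abs_le.1 (hx j)]
  have h2 := Nat.floor_le (h1 j)
  have h3 := Nat.lt_floor_add_one ((x j + 4) * n)
  rw [show x j - _ = ((x j + 4) * n - ⌊(x j + 4) * n⌋₊) / n by field_simp; ring, abs_div,
    abs_of_pos h0]
  gcongr
  exact abs_le.2 ⟨by linarith, by linarith⟩

lemma count (hl : 2 ≤ l) (hm : 3000 * l * Real.log l ≤ m) : (2 * Fintype.card
    ((Fin l → Fin (8 * (200 * l ^ 3) + 1)) × (Fin l → Fin (8 * (200 * l ^ 3) + 1)) × Fin 3) : ℝ) <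
      Real.exp (m / 100) := by
  have h0 : (0 : ℝ) < l := by positivity
  have h1 : 8 * (200 * l ^ 3) + 1 ≤ l ^ 14 := by
    have := Nat.pow_le_pow_left hl 11
    have := Nat.one_le_pow 3 l (by omega)
    rw [show l ^ 14 = l ^ 11 * l ^ 3 by ring]; nlinarith
  have h2 : 6 < l ^ (2 * l) :=
    lt_of_lt_of_le (by norm_num) ((Nat.pow_le_pow_right two_pos (show 4 ≤ 2 * l by omega)).trans
      (Nat.pow_le_pow_left hl _))
  refine lt_of_lt_of_le (b := ((l ^ (30 * l) : ℕ) : ℝ)) ?_ ?_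
  · norm_cast
    simp only [Fintype.card_prod, Fintype.card_fun, Fintype.card_fin]
    have h3 := Nat.pow_le_pow_left h1 l
    calc _ ≤ 2 * ((l ^ 14) ^ l * ((l ^ 14) ^ l * 3)) := by gcongr
      _ = 6 * l ^ (28 * l) := by ring
      _ < l ^ (2 * l) * l ^ (28 * l) := by gcongr
      _ = _ := by ring
  · rw [Nat.cast_pow, ← Real.exp_log h0, ← Real.exp_nat_mul]
    push_cast
    exact Real.exp_le_exp.2 (by linarith)

theorem imm (hl : 2 ≤ l) (hm0 : 0 < m) (hm : 3000 * l * Real.log l ≤ m) :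
    ∃ g : ContinuousMultilinearMap ℝ (fun _ : Fin l => ℂ) (EuclideanSpace ℝ (Fin (m + 1))),
      (∀ z, g z 0 = 0) ∧ ‖g‖ ≤ 1 / 2 ∧ ∀ z, T z → ∀ v, (∑ j, v j ^ 2) / 16384 ≤ ‖Dv v g z‖ ^ 2 ∧
        ‖Dv v (Dv v g) z‖ ≤ 15 * ∑ j, v j ^ 2 := by
  have hc := count hl hm
  set n := 200 * l ^ 3 with hn
  have hn0 : 0 < n := by positivity
  let p : (Fin l → Fin (8 * n + 1)) → Fin l → ℝ := fun k j => (k j : ℝ) / n - 4
  let e : (Fin l → Fin (8 * n + 1)) → Fin l → ℂ := fun k j => exp (I * p k j)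
  have he : ∀ k, T (e k) := fun k j => norm_exp_I_mul_ofReal _
  obtain ⟨ε, hε⟩ := jl (fun i : _ × _ × Fin 3 =>
    W (fun a => (I * X a (p i.2.1)) ^ (i.2.2 : ℕ)) (e i.1)) m hc
  set t : ℝ := √(256 * m * 2 ^ l)⁻¹ with ht
  have ht2 : t ^ 2 * (m * 2 ^ l) = 1 / 256 := by
    rw [Real.sq_sqrt (by positivity)]; field_simp
  let g := (A t ε).compContinuousMultilinearMap
    (ContinuousMultilinearMap.pi fun k : _ × _ => (φ k.2).compContinuousMultilinearMap (ν k.1))
  have hg : ⇑g = fun z => A t ε (W (fun _ => 1) z) := by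
    ext1 z; simp only [g, ContinuousLinearMap.compContinuousMultilinearMap_coe, Function.comp]
    congr 1; ext k; simp [W]
  have hl2 : (2 : ℝ) ≤ l := by exact_mod_cast hl
  set δ : ℝ := 1 / n with hδ
  have hδ0 : 0 < δ := by positivity
  have hδ3 : l ^ 3 * δ = 1 / 200 := by rw [hδ, hn]; push_cast; field_simp
  have hδ2 : l ^ 2 * δ ≤ 1 / 400 := by nlinarith [mul_pos (pow_pos (two_pos.trans_le hl2) 2) hδ0]
  have hδ1 : l * δ ≤ 1 / 800 := by nlinarith [mul_pos (two_pos.trans_le hl2) hδ0]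
  have hz : ∀ z, T z → ∃ k, Near δ z (e k) := fun z hz => by
    obtain ⟨k, hk⟩ := net hn0 (fun j => arg (z j)) fun j =>
      (abs_arg_le_pi _).trans Real.pi_le_four
    refine ⟨k, hz, he k, fun j => le_trans ?_ (Real.norm_exp_I_mul_ofReal_sub_one_le.trans (hk j))⟩
    have h := norm_mul_exp_arg_mul_I (z j)
    rw [hz j, ofReal_one, one_mul, mul_comm] at h
    rw [← one_mul ‖_ - 1‖, ← he k j, ← norm_mul, mul_sub, mul_one, ← exp_add, ← mul_add,
      ← ofReal_add, add_sub_cancel, h]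
  have hK : ∀ z z', Near δ z z' → ‖g z - g z'‖ ≤ ‖g‖ * (l * δ) := fun z z' h => by
    refine (g.norm_image_sub_le z z').trans ?_
    have h1 : max ‖z‖ ‖z'‖ ≤ 1 := max_le ((pi_norm_le_iff_of_nonneg zero_le_one).2 fun j =>
      (h.1 j).le) ((pi_norm_le_iff_of_nonneg zero_le_one).2 fun j => (h.2.1 j).le)
    rw [Fintype.card_fin, mul_assoc, mul_assoc, ← one_mul δ]
    gcongr
    exacts [pow_le_one₀ (by positivity) h1, (pi_norm_le_iff_of_nonneg hδ0.le).2 h.2.2]
  have hcard : (Fintype.card (Fin l → Bool) : ℝ) = 2 ^ l := by simp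
  have hM : ‖g‖ ≤ 1 / 2 := by
    suffices ‖g‖ ≤ 1 / 4 + ‖g‖ * (l * δ) by nlinarith [norm_nonneg g]
    refine g.opNorm_le_bound (by positivity) fun z => ?_
    obtain ⟨k, hk⟩ := hz (fun j => exp (arg (z j) * I)) fun j => norm_exp_ofReal_mul_I _
    have h1 := (hε (k, k, 0)).2
    rw [sum_W _ (he k)] at h1
    simp only [Fin.val_zero, pow_zero, norm_one, one_pow, sum_const, card_univ, nsmul_eq_mul,
      hcard] at h1
    have h2 : ‖g (e k)‖ ≤ 1 / 4 := abs_le_of_sq_le_sq' (by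
      rw [hg, norm_A]; nlinarith [mul_le_mul_of_nonneg_left h1 (sq_nonneg t)]) (by norm_num) |>.2
    rw [show g z = g fun j => ‖z j‖ • exp (arg (z j) * I) by
      simp only [real_smul, norm_mul_exp_arg_mul_I], g.map_smul_univ, norm_smul, mul_comm,
      Real.norm_of_nonneg (by positivity)]
    gcongr
    linarith [norm_sub_norm_le (g fun j => exp (arg (z j) * I)) (g (e k)), hK _ _ hk]
  have main : ∀ z, T z → ∀ v : Fin l → ℝ, ∑ j, v j ^ 2 = 1 →
      1 / 128 ≤ ‖Dv v g z‖ ∧ ‖Dv v (Dv v g) z‖ ≤ 15 := fun z hT v hv => by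
    have hv1 : ∀ j, |v j| ≤ 1 := fun j => abs_le_one_iff_mul_self_le_one.2 (by
      rw [← sq, ← hv]; exact single_le_sum (fun _ _ => sq_nonneg _) (mem_univ j))
    obtain ⟨k, hk⟩ := hz z hT
    obtain ⟨k', hk'⟩ := net hn0 v fun j => (hv1 j).trans (by norm_num)
    have hδ' : δ ≤ 1 := by nlinarith
    have L1 := lip (h' := g) hv1 hk' hδ' (fun z hz => (g.unit_le_opNorm
      ((pi_norm_le_iff_of_nonneg zero_le_one).2 fun j => (hz j).le)).trans hM)
      fun z z' h => (hK z z' h).trans (mul_le_mul_of_nonneg_right hM (by positivity))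
    have L2 := (lip hv1 hk' hδ' L1.1 L1.2).2 _ _ hk
    replace L1 := L1.2 _ _ hk
    have hs : |∑ j, v j ^ 2 - ∑ j, p k' j ^ 2| ≤ l * (3 * δ) := by
      rw [← sum_sub_distrib]
      refine (abs_sum_le_sum_abs _ _).trans ((sum_le_card_nsmul _ _ (3 * δ) fun j _ => ?_).trans
        (by simp))
      rw [sq_sub_sq, abs_mul]
      refine mul_le_mul (abs_le.2 ?_) (hk' j) (abs_nonneg _) (by norm_num)
      constructor <;> linarith [abs_le.1 (hv1 j), abs_le.1 (hk' j)]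
    rw [hv, abs_le] at hs
    have h1 := (hε (k, k', 1)).1
    have h2 := (hε (k, k', 2)).2
    have h3 := two (p k')
    have h4 := four (p k')
    rw [sum_W _ (he k)] at h1 h2
    simp only [Fin.val_one, Fin.val_two, pow_one, norm_pow, norm_mul, norm_I, one_mul, norm_real,
      Real.norm_eq_abs, sq_abs, ← pow_mul, Fintype.card_fin] at h1 h2 h3 h4
    have hm' : (0 : ℝ) ≤ t ^ 2 * m := by positivity
    have G1 : 1 / 64 ≤ ‖Dv (p k') g (e k)‖ := abs_le_of_sq_le_sq' (by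
      rw [hg, Dv_map, Dv_W, norm_A]
      simp only [mul_one]
      nlinarith [mul_le_mul_of_nonneg_left h1 (sq_nonneg t), mul_le_mul_of_nonneg_left h3 hm'])
      (norm_nonneg _) |>.2
    have G2 : ‖Dv (p k') (Dv (p k') g) (e k)‖ ≤ 14 := abs_le_of_sq_le_sq' (by
      rw [hg, Dv_map, Dv_map, Dv_W, Dv_W, norm_A]
      simp only [mul_one, ← sq]
      have h5 : (∑ j, p k' j ^ 2) ^ 2 ≤ 2 ^ 2 := by gcongr; linarith
      nlinarith [mul_le_mul_of_nonneg_left h2 (sq_nonneg t), mul_le_mul_of_nonneg_left h4 hm'])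
      (by norm_num) |>.2
    constructor
    · nlinarith [norm_sub_norm_le (Dv (p k') g (e k)) (Dv v g z),
        norm_sub_rev (Dv (p k') g (e k)) (Dv v g z)]
    · nlinarith [norm_sub_norm_le (Dv v (Dv v g) z) (Dv (p k') (Dv (p k') g) (e k))]
  refine ⟨g, fun z => by rw [hg]; rfl, hM, fun z hT v => ?_⟩
  obtain ⟨s, w, h1, h2, rfl⟩ : ∃ (s : ℝ) (w : Fin l → ℝ), s ^ 2 = ∑ j, v j ^ 2 ∧
      ∑ j, w j ^ 2 = 1 ∧ v = fun j => s * w j := by
    by_cases h : ∑ j, v j ^ 2 = 0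
    · refine ⟨0, Pi.single ⟨0, by omega⟩ 1, by simp [h], by simp [Pi.single_apply], ?_⟩
      ext j
      simpa using (sum_eq_zero_iff_of_nonneg fun _ _ => sq_nonneg _).1 h j (mem_univ j)
    have h0 : 0 < ∑ j, v j ^ 2 := lt_of_le_of_ne (by positivity) (Ne.symm h)
    refine ⟨_, fun j => (√(∑ j, v j ^ 2))⁻¹ * v j, Real.sq_sqrt h0.le, ?_, ?_⟩
    · simp only [mul_pow, ← mul_sum, inv_pow, Real.sq_sqrt h0.le, inv_mul_cancel₀ h]
    · ext j; rw [mul_inv_cancel_left₀ (Real.sqrt_pos.2 h0).ne']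
  obtain ⟨h3, h4⟩ := main z hT w h2
  have h5 : Dv w (fun z => s • Dv w g z) z = s • Dv w (Dv w g) z := by
    simp only [Dv.eq_1 w _ z, smul_sum, smul_comm s]
  rw [← h1, Dv_smul, Dv_smul]
  simp only [h5, norm_smul, mul_pow, Real.norm_eq_abs, sq_abs, ← mul_assoc, ← sq]
  constructor
  · nlinarith [mul_le_mul_of_nonneg_left (pow_le_pow_left₀ (by norm_num) h3 2) (sq_nonneg s)]
  · nlinarith [sq_nonneg s]

end Pool.Agent.Lib.MP_ecbb26_gt.JL
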