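import Mathlib

/-! Random sign matrices preserve the lengths of finitely many vectors up to constant factors. -/

set_option autoImplicit false

namespace Pool.Agent.Lib.MP_ecbb26_gt.JL

open Finset Real

/-- The sign attached to a bit. -/
def sg (b : Bool) : ℝ := if b then 1 else -1

variable {D : Type} [Fintype D] [DecidableEq D]

/-- The signed sum. -/
def X (ε : D → Bool) (w : D → ℝ) : ℝ := ∑ k, sg (ε k) * w k

omit [DecidableEq D] in
lemma X_smul (ε : D → Bool) (t : ℝ) (w : D → ℝ) : X ε (fun k => t * w k) = t * X ε w := by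
  simp only [X, mul_sum, mul_left_comm]

lemma mgf (w : D → ℝ) : ∑ ε, exp (X ε w) = 2 ^ Fintype.card D * ∏ k, cosh (w k) := by
  simp only [X, exp_sum]
  rw [← Fintype.piFinset_univ, ← prod_univ_sum (fun _ => univ) fun k b => exp (sg b * w k),
    ← card_univ, ← prod_const, ← prod_mul_distrib]
  refine prod_congr rfl fun k _ => ?_
  simp [sg, cosh_eq]
  ring

lemma cosh_sum (w : D → ℝ) : ∑ ε, cosh (X ε w) = 2 ^ Fintype.card D * ∏ k, cosh (w k) := by
  have h := mgf fun k => -1 * w k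
  simp only [X_smul] at h
  simp only [neg_one_mul, cosh_neg] at h
  simp only [cosh_eq (X _ _), ← sum_div, sum_add_distrib, h, mgf]
  ring

lemma cosh_up (t : ℝ) (w : D → ℝ) :
    ∑ ε, cosh (t * X ε w) ≤ 2 ^ Fintype.card D * exp (t ^ 2 * (∑ k, w k ^ 2) / 2) := by
  simp only [← X_smul, cosh_sum, mul_sum, sum_div, exp_sum, ← mul_pow]
  gcongr
  exact cosh_le_exp_half_sq _

lemma cosh_low (w : D → ℝ) :
    2 ^ Fintype.card D * (1 + (∑ k, w k ^ 2) / 2) ≤ ∑ ε, cosh (X ε w) := by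
  rw [cosh_sum]
  gcongr
  have h : ∀ y : ℝ, 1 + y ^ 2 / 2 ≤ cosh y := fun y => by
    have h1 := cosh_two_mul (|y| / 2)
    have h2 := cosh_sq (|y| / 2)
    have h3 := self_le_sinh_iff.2 (show 0 ≤ |y| / 2 by positivity)
    rw [mul_div_cancel₀ _ two_ne_zero, cosh_abs] at h1
    nlinarith [sq_abs y, abs_nonneg y]
  induction (univ : Finset D) using Finset.induction_on with
  | empty => simp
  | insert a s ha ih =>
    rw [sum_insert ha, prod_insert ha]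
    have : 0 ≤ ∑ k ∈ s, w k ^ 2 := by positivity
    refine le_trans ?_ (mul_le_mul (h _) ih (by positivity) (by positivity))
    nlinarith [mul_nonneg this (sq_nonneg (w a))]

lemma up (w : D → ℝ) (h : ∑ k, w k ^ 2 ≤ 1) :
    ∑ ε, exp (X ε w ^ 2 / 4) ≤ 2 ^ Fintype.card D * exp 3 := by
  obtain ⟨K, hK⟩ : ∃ K : ℕ, ∀ ε, ⌊|X ε w| / 2⌋₊ < K :=
    ⟨univ.sup (fun ε => ⌊|X ε w| / 2⌋₊) + 1, fun ε => Nat.lt_succ_of_le
      (le_sup (f := fun ε => ⌊|X ε w| / 2⌋₊) (mem_univ ε))⟩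
  have h1 : ∀ ε, exp (X ε w ^ 2 / 4) ≤
      ∑ j ∈ range K, 2 * exp 1 * exp (-(j : ℝ) ^ 2) * cosh (j * X ε w) := fun ε => by
    refine le_trans ?_ (single_le_sum (fun _ _ => by positivity) (mem_range.2 (hK ε)))
    have h1 := Nat.floor_le (show 0 ≤ |X ε w| / 2 by positivity)
    have h2 := Nat.lt_floor_add_one (|X ε w| / 2)
    generalize (⌊|X ε w| / 2⌋₊ : ℝ) = j at *
    have h3 : exp (j * |X ε w|) ≤ 2 * cosh (j * X ε w) := by
      have := exp_pos (-(j * |X ε w|))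
      rw [← cosh_abs, abs_mul, ← cosh_abs, abs_mul, abs_abs, ← abs_mul, cosh_abs, cosh_eq]
      linarith
    calc _ ≤ exp (1 + -j ^ 2 + j * |X ε w|) := exp_le_exp.2 (by nlinarith [sq_abs (X ε w)])
      _ = exp 1 * exp (-j ^ 2) * exp (j * |X ε w|) := by rw [exp_add, exp_add]
      _ ≤ exp 1 * exp (-j ^ 2) * (2 * cosh (j * X ε w)) := by gcongr
      _ = _ := by ring
  have h2 : ∀ j : ℕ, ∑ ε, 2 * exp 1 * exp (-(j : ℝ) ^ 2) * cosh (j * X ε w) ≤
      2 ^ Fintype.card D * (2 * exp 1) * (2 / 3) ^ j := fun j => by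
    have h3 : exp (-(j : ℝ) ^ 2) * exp (j ^ 2 * (∑ k, w k ^ 2) / 2) ≤ (2 / 3) ^ j := by
      have h4 : (j : ℝ) ≤ j ^ 2 := by exact_mod_cast Nat.le_self_pow two_ne_zero j
      have h5 : exp (-(1 / 2)) ≤ 2 / 3 := by
        rw [exp_neg, inv_le_comm₀ (exp_pos _) (by norm_num)]
        linarith [add_one_le_exp (1 / 2)]
      calc _ ≤ exp (j * -(1 / 2)) := by
            rw [← exp_add]; exact exp_le_exp.2 (by nlinarith [sq_nonneg (j : ℝ)])
        _ ≤ _ := by rw [exp_nat_mul]; gcongr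
    calc _ ≤ 2 * exp 1 * exp (-(j : ℝ) ^ 2) *
          (2 ^ Fintype.card D * exp (j ^ 2 * (∑ k, w k ^ 2) / 2)) := by
          rw [← mul_sum]; gcongr; exact cosh_up _ _
      _ = 2 ^ Fintype.card D * (2 * exp 1) *
          (exp (-(j : ℝ) ^ 2) * exp (j ^ 2 * (∑ k, w k ^ 2) / 2)) := by ring
      _ ≤ _ := by gcongr
  have h3 : ∑ j ∈ range K, (2 / 3 : ℝ) ^ j ≤ 3 := by
    rw [geom_sum_eq (by norm_num), div_le_iff_of_neg (by norm_num)]
    linarith [pow_pos (show (0 : ℝ) < 2 / 3 by norm_num) K]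
  have h4 : 2 * exp 1 * 3 ≤ exp 3 := by
    rw [show (3 : ℝ) = 1 + 1 + 1 by norm_num, exp_add, exp_add]
    nlinarith [exp_one_gt_d9, mul_pos (exp_pos 1) (exp_pos 1)]
  refine (sum_le_sum fun ε _ => h1 ε).trans ?_
  rw [sum_comm]
  refine (sum_le_sum fun j _ => h2 j).trans ?_
  rw [← mul_sum, mul_assoc]
  gcongr
  exact le_trans (by gcongr) h4

lemma low (w : D → ℝ) (h : ∑ k, w k ^ 2 = 1) :
    ∑ ε, exp (-(X ε w ^ 2 / 32)) ≤ 2 ^ Fintype.card D * (49 / 50) := by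
  have h1 : ∀ y : ℝ, exp (-(y ^ 2 / 32)) ≤ 4 - 3 * cosh (1 / 4 * y) + (cosh (1 / 2 * y) - 1) / 2 := by
    intro y
    have h1 := cosh_le_exp_half_sq (1 / 4 * y)
    have h2 := one_le_cosh (1 / 4 * y)
    have h3 := cosh_two_mul (1 / 4 * y)
    have h4 := cosh_sq (1 / 4 * y)
    rw [show 2 * (1 / 4 * y) = 1 / 2 * y by ring] at h3
    rw [show (1 / 4 * y) ^ 2 / 2 = y ^ 2 / 32 by ring] at h1
    rw [exp_neg]
    refine (inv_anti₀ (by linarith) h1).trans ?_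
    rw [inv_le_iff_one_le_mul₀ (by linarith), h3]
    nlinarith [pow_nonneg (sub_nonneg.2 h2) 3]
  have h2 := cosh_low fun k => 1 / 4 * w k
  have h3 := cosh_up (1 / 2) w
  have h4 : exp ((1 / 2) ^ 2 * 1 / 2) ≤ 8 / 7 := by
    have := add_one_le_exp (-((1 / 2) ^ 2 * 1 / 2))
    rw [exp_neg, le_inv_comm₀ (by norm_num) (exp_pos _)] at this
    exact this.trans (by norm_num)
  simp only [X_smul, mul_pow, ← mul_sum, h] at h2 h3
  refine (sum_le_sum fun ε _ => h1 _).trans ?_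
  simp only [sum_add_distrib, sum_sub_distrib, ← mul_sum, ← sum_div, sum_const, card_univ,
    Fintype.card_fun, Fintype.card_bool, nsmul_eq_mul, Nat.cast_pow, Nat.cast_ofNat]
  have h5 : (0 : ℝ) < 2 ^ Fintype.card D := by positivity
  nlinarith

omit [DecidableEq D] in
lemma unit (w : D → ℝ) (h : ∑ k, w k ^ 2 ≠ 0) : ∃ (t : ℝ) (u : D → ℝ), t ^ 2 = ∑ k, w k ^ 2 ∧
    ∑ k, u k ^ 2 = 1 ∧ ∀ ε, X ε w = t * X ε u := by
  have h0 : 0 < ∑ k, w k ^ 2 := lt_of_le_of_ne (by positivity) h.symm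
  have h1 := sqrt_pos.2 h0
  refine ⟨_, fun k => (√(∑ k, w k ^ 2))⁻¹ * w k, sq_sqrt h0.le, ?_, fun ε => ?_⟩
  · simp only [mul_pow, ← mul_sum, inv_pow, sq_sqrt h0.le, inv_mul_cancel₀ h]
  · rw [X_smul, mul_inv_cancel_left₀ h1.ne']

omit [DecidableEq D] in
lemma X_zero {w : D → ℝ} (h : ∑ k, w k ^ 2 = 0) (ε : D → Bool) : X ε w = 0 :=
  sum_eq_zero fun k _ => by
    rw [pow_eq_zero_iff two_ne_zero |>.1
      ((sum_eq_zero_iff_of_nonneg fun _ _ => sq_nonneg _).1 h k (mem_univ k)), mul_zero]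

lemma two (w : D → ℝ) : 2 ^ Fintype.card D * (∑ k, w k ^ 2) / 2 ≤ ∑ ε, X ε w ^ 2 := by
  by_cases h : ∑ k, w k ^ 2 = 0
  · rw [h, mul_zero, zero_div]; positivity
  obtain ⟨t, u, h1, h2, h3⟩ := unit w h
  have h4 := (sum_le_sum fun ε _ => add_one_le_exp (-(X ε u ^ 2 / 32))).trans (low u h2)
  simp only [sum_add_distrib, sum_neg_distrib, ← sum_div, sum_const, card_univ,
    Fintype.card_fun, Fintype.card_bool, nsmul_eq_mul, Nat.cast_pow, Nat.cast_ofNat] at h4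
  simp only [h3, mul_pow, ← mul_sum, ← h1]
  have h5 : (0 : ℝ) < 2 ^ Fintype.card D := by positivity
  nlinarith [sq_nonneg t, mul_nonneg (sq_nonneg t) h5.le]

lemma four (w : D → ℝ) : ∑ ε, X ε w ^ 4 ≤ 2 ^ Fintype.card D * 700 * (∑ k, w k ^ 2) ^ 2 := by
  by_cases h : ∑ k, w k ^ 2 = 0
  · simp [X_zero h, h]
  obtain ⟨t, u, h1, h2, h3⟩ := unit w h
  have h4 : ∑ ε, X ε u ^ 4 / 32 ≤ _ := (sum_le_sum fun ε _ => by
    have := quadratic_le_exp_of_nonneg (show 0 ≤ X ε u ^ 2 / 4 by positivity)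
    nlinarith [sq_nonneg (X ε u)]).trans (up u h2.le)
  have h5 : exp 3 ≤ 21 := by
    rw [show (3 : ℝ) = (3 : ℕ) * 1 by norm_num, exp_nat_mul]
    exact (pow_le_pow_left₀ (exp_pos 1).le exp_one_lt_d9.le 3).trans (by norm_num)
  rw [← sum_div] at h4
  simp only [h3, mul_pow, ← mul_sum, ← h1, ← pow_mul]
  have h6 : (0 : ℝ) < 2 ^ Fintype.card D := by positivity
  rw [mul_comm]
  gcongr
  nlinarith

theorem jl {ι : Type} [Fintype ι] (w : ι → D → ℝ) (N : ℕ)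
    (hN : 2 * Fintype.card ι < exp (N / 100)) : ∃ ε : Fin N → D → Bool, ∀ i,
      N * (∑ k, w i k ^ 2) / 4 ≤ ∑ r, X (ε r) (w i) ^ 2 ∧
        ∑ r, X (ε r) (w i) ^ 2 ≤ 16 * N * ∑ k, w i k ^ 2 := by
  classical
  choose t u h1 h2 h3 using fun i : {i // ∑ k, w i k ^ 2 ≠ 0} => unit (w i) i.2
  have key : ∀ (φ : (D → Bool) → ℝ) (c : ℝ), (∑ ε, exp (φ ε) ≤ 2 ^ Fintype.card D * exp c) →
      ∑ ε : Fin N → D → Bool, exp (∑ r, φ (ε r) - N * (c + 1 / 100)) ≤
        (2 ^ Fintype.card D) ^ N * exp (-(N / 100)) := fun φ c h => by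
    simp only [exp_sub, exp_sum, ← sum_div]
    rw [← Fintype.piFinset_univ, ← prod_univ_sum (fun _ => univ) fun _ b => exp (φ b), prod_const,
      card_fin, div_le_iff₀ (exp_pos _), mul_assoc, ← exp_add,
      show -((N : ℝ) / 100) + N * (c + 1 / 100) = N * c by ring, exp_nat_mul, ← mul_pow]
    gcongr
  obtain ⟨ε, -, hε⟩ := exists_lt_of_sum_lt (s := (univ : Finset (Fin N → D → Bool)))
    (f := fun ε => ∑ i, (exp (∑ r, X (ε r) (u i) ^ 2 / 4 - N * (3 + 1 / 100)) +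
      exp (∑ r, -(X (ε r) (u i) ^ 2 / 32) - N * (-(1 / 50) + 1 / 100)))) (g := fun _ => 1) (by
      rw [sum_comm]
      refine (sum_le_card_nsmul _ _ (2 * ((2 ^ Fintype.card D) ^ N * exp (-(N / 100))))
        fun i _ => ?_).trans_lt ?_
      · rw [sum_add_distrib, two_mul]
        exact add_le_add (key _ _ (up _ (h2 i).le)) (key _ _ ((low _ (h2 i)).trans (by
          gcongr; linarith [add_one_le_exp (-(1 / 50))])))
      · have h4 : (Fintype.card {i // ∑ k, w i k ^ 2 ≠ 0} : ℝ) ≤ Fintype.card ι := by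
          exact_mod_cast Fintype.card_subtype_le _
        simp only [sum_const, card_univ, Fintype.card_fun, Fintype.card_bool, Fintype.card_fin,
          nsmul_eq_mul, Nat.cast_pow, Nat.cast_ofNat, mul_one, exp_neg]
        rw [← div_eq_mul_inv, ← mul_div_assoc, ← mul_div_assoc, div_lt_iff₀ (exp_pos _),
          ← mul_assoc, mul_comm]
        gcongr
        linarith)
  refine ⟨ε, fun i => ?_⟩
  by_cases h : ∑ k, w i k ^ 2 = 0
  · simp [X_zero h, h]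
  have h4 := (single_le_sum (fun _ _ => by positivity) (mem_univ ⟨i, h⟩)).trans_lt hε
  have h5 := exp_lt_one_iff.1 ((le_add_of_nonneg_right (exp_pos _).le).trans_lt h4)
  have h6 := exp_lt_one_iff.1 ((le_add_of_nonneg_left (exp_pos _).le).trans_lt h4)
  rw [← sum_div] at h5
  rw [sum_neg_distrib, ← sum_div] at h6
  simp only [h3 ⟨i, h⟩, mul_pow, ← mul_sum, ← h1 ⟨i, h⟩]
  have h7 : (0 : ℝ) ≤ N := Nat.cast_nonneg N
  constructor <;> nlinarith [sq_nonneg (t ⟨i, h⟩), mul_nonneg (sq_nonneg (t ⟨i, h⟩)) h7]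

end Pool.Agent.Lib.MP_ecbb26_gt.JL
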