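import Pool.Agent.Lib.MP_ecbb26_gt.LevelSet

/-!
A level set of codimension `dim G` with a map `f` to `ℝ^(m+1)` and a normal field `n` of length
`ρ` with `|dn| ≤ |df|`: it is a smooth `m`-manifold, immersed by `f` with curvature `≤ 1 / ρ`.
-/

open scoped Manifold ContDiff ENNReal Topology RealInnerProductSpace

namespace Pool.Agent.Lib.MP_ecbb26_gt

open Set Function

variable {E G : Type} [NormedAddCommGroup E] [NormedSpace ℝ E] [FiniteDimensional ℝ E]
  [NormedAddCommGroup G] [NormedSpace ℝ G] [FiniteDimensional ℝ G] {m : ℕ}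

omit [FiniteDimensional ℝ G] in
theorem exists_diffeo {H : E → G} (hH : ContDiff ℝ ∞ H) (x₀ : E)
    (hx : fderiv ℝ H x₀ ∈ range ((↑) : (E ≃L[ℝ] G) → E →L[ℝ] G)) :
    ∃ Φ : OpenPartialHomeomorph E G,
      (∀ y, Φ y = H y) ∧ x₀ ∈ Φ.source ∧ ContDiffOn ℝ ∞ Φ.symm Φ.target := by
  have : CompleteSpace E := FiniteDimensional.complete ℝ E
  have hd : ∀ y, HasFDerivAt H (fderiv ℝ H y) y := fun y =>
    (hH.differentiable (by simp) y).hasFDerivAt
  have hU := ContinuousLinearEquiv.isOpen.preimage (hH.continuous_fderiv (by simp))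
  obtain ⟨e, he⟩ := id hx
  let Φ₀ := (hH.contDiffAt (x := x₀)).toOpenPartialHomeomorph _ (he ▸ hd x₀) (by simp)
  refine ⟨Φ₀.restrOpen _ hU, fun y => rfl,
    ⟨ContDiffAt.mem_toOpenPartialHomeomorph_source _ _ _, hx⟩, fun a ha => ?_⟩
  obtain ⟨e', he'⟩ := ((Φ₀.restrOpen _ hU).map_target ha).2
  exact ((Φ₀.restrOpen _ hU).contDiffAt_symm (f₀' := e') ha (he' ▸ hd _)
    hH.contDiffAt).contDiffWithinAt

variable {F : E → G} {c : G} {f n : E → EuclideanSpace ℝ (Fin (m + 1))} {ρ : ℝ}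

/-- A chart given by all but one of the coordinates of `f`, with smooth inverse. -/
def GoodChart₂ (F : E → G) (c : G) (f : E → EuclideanSpace ℝ (Fin (m + 1)))
    (e : OpenPartialHomeomorph {x // F x = c} (EuclideanSpace ℝ (Fin m))) : Prop :=
  (∃ i, ∀ y, e y = dropCoord i (f y)) ∧ ContDiffOn ℝ ∞ (fun z => (e.symm z : E)) e.target

theorem exists_goodChart₂ (hF : ContDiff ℝ ∞ F) (hf : ContDiff ℝ ∞ f)
    (hdim : Module.finrank ℝ E = Module.finrank ℝ G + m) (x₀ : {x // F x = c})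
    {ν : EuclideanSpace ℝ (Fin (m + 1))} (hν : ν ≠ 0) (hx : ∀ ξ, fderiv ℝ F x₀ ξ = 0 →
      ⟪ν, fderiv ℝ f x₀ ξ⟫ = 0 ∧ (fderiv ℝ f x₀ ξ = 0 → ξ = 0)) :
    ∃ e, x₀ ∈ e.source ∧ GoodChart₂ F c f e := by
  classical
  obtain ⟨i, hi⟩ : ∃ i, ν i ≠ 0 := by
    by_contra! h
    exact hν (by ext i; exact h i)
  have hP : ContDiff ℝ ∞ fun y => dropCoord i (f y) := (dropCoord i).contDiff.comp hf
  obtain ⟨Φ, hΦ, hx₀, hsm⟩ := exists_diffeo (hF.prodMk hP) x₀ (by
    erw [((hF.differentiable (by simp) _).hasFDerivAt.prodMk ((dropCoord i).hasFDerivAt.comp _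
      (hf.differentiable (by simp) _).hasFDerivAt)).fderiv]
    refine ⟨(LinearMap.linearEquivOfInjective ((fderiv ℝ F x₀).prod
      ((dropCoord i).comp (fderiv ℝ f x₀))).toLinearMap ?_ (by simp [hdim])
        ).toContinuousLinearEquiv, by ext1 y; rfl⟩
    rw [injective_iff_map_eq_zero]
    intro y hy
    obtain ⟨h1, h2⟩ := hx y (congrArg Prod.fst hy)
    have h3 := eq_of_dropCoord_eq_zero i (fderiv ℝ f x₀ y) (congrArg Prod.snd hy :)
    rw [h3, real_inner_smul_right, EuclideanSpace.inner_single_right] at h1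
    exact h2 (by rw [h3, (mul_eq_zero.1 h1).resolve_right (by simpa using hi), zero_smul]))
  have h1 : ∀ z, (c, z) ∈ Φ.target → _ := fun z hz => (hΦ _).symm.trans (Φ.right_inv hz)
  have h3 : ∀ y : {x // F x = c}, (c, dropCoord i (f y)) = Φ y := fun y => by rw [hΦ, y.2]
  let inv : EuclideanSpace ℝ (Fin m) → {x // F x = c} := fun z =>
    if h : (c, z) ∈ Φ.target then ⟨Φ.symm (c, z), congrArg Prod.fst (h1 z h)⟩ else x₀
  have h4 : ∀ z, (c, z) ∈ Φ.target → (inv z : E) = Φ.symm (c, z) :=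
    fun z hz => by simp only [inv, dif_pos hz]
  have h5 : ContDiffOn ℝ ∞ (fun z => (inv z : E)) ((fun z => (c, z)) ⁻¹' Φ.target) :=
    (hsm.comp (contDiff_const.prodMk contDiff_id).contDiffOn fun z hz => hz).congr h4
  let e : OpenPartialHomeomorph {x // F x = c} (EuclideanSpace ℝ (Fin m)) :=
    { toFun := fun y => dropCoord i (f y)
      invFun := inv
      source := Subtype.val ⁻¹' Φ.source
      target := (fun z => (c, z)) ⁻¹' Φ.target
      map_source' := fun y hy => by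
        change (c, _) ∈ Φ.target
        rw [h3]
        exact Φ.map_source hy
      map_target' := fun z hz => by
        change (inv z : E) ∈ Φ.source
        rw [h4 z hz]
        exact Φ.map_target hz
      left_inv' := fun y hy => by
        apply Subtype.ext
        rw [h4 _ (by rw [h3]; exact Φ.map_source hy), h3]
        exact Φ.left_inv hy
      right_inv' := fun z hz => by
        rw [h4 z hz]
        exact congrArg Prod.snd (h1 z hz)
      open_source := Φ.open_source.preimage continuous_subtype_val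
      open_target := Φ.open_target.preimage (by fun_prop)
      continuousOn_toFun := (hP.continuous.comp continuous_subtype_val).continuousOn
      continuousOn_invFun := by
        rw [Topology.IsInducing.subtypeVal.continuousOn_iff]
        exact h5.continuousOn }
  exact ⟨e, hx₀, ⟨i, fun _ => rfl⟩, h5⟩

theorem levelSet_main₂ (hF : ContDiff ℝ ∞ F) (hf : ContDiff ℝ ∞ f) (hn : ContDiff ℝ ∞ n)
    (hdim : Module.finrank ℝ E = Module.finrank ℝ G + m) (hρ : 0 < ρ)
    (hnρ : ∀ x, F x = c → ‖n x‖ = ρ) (hT : ∀ x, F x = c → ∀ ξ, fderiv ℝ F x ξ = 0 →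
      (⟪n x, fderiv ℝ f x ξ⟫ = 0 ∧ (fderiv ℝ f x ξ = 0 → ξ = 0)) ∧
        ‖fderiv ℝ n x ξ‖ ≤ ‖fderiv ℝ f x ξ‖) :
    ∃ _ : ChartedSpace (EuclideanSpace ℝ (Fin m)) {x // F x = c},
      IsManifold (𝓡 m) ∞ {x // F x = c} ∧
      ContMDiff (𝓡 m) (𝓡 (m + 1)) ∞ (fun x : {x // F x = c} => f x) ∧
      (∀ x, Injective (mfderiv (𝓡 m) (𝓡 (m + 1)) (fun x : {x // F x = c} => f x) x)) ∧
      normalCurvature (EuclideanSpace ℝ (Fin m)) (fun x : {x // F x = c} => f x) ≤
        ENNReal.ofReal ρ⁻¹ := by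
  have hex := fun x : {x // F x = c} => exists_goodChart₂ hF hf hdim x
    (norm_pos_iff.1 ((hnρ x x.2).symm ▸ hρ)) fun ξ h => (hT x x.2 ξ h).1
  let _ : ChartedSpace (EuclideanSpace ℝ (Fin m)) {x // F x = c} :=
    { atlas := {e | GoodChart₂ F c f e}
      chartAt x := (hex x).choose
      mem_chart_source x := (hex x).choose_spec.1
      chart_mem_atlas x := (hex x).choose_spec.2 }
  have hgood : ∀ x : {x // F x = c}, GoodChart₂ F c f (chartAt (EuclideanSpace ℝ (Fin m)) x) :=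
    fun x => chart_mem_atlas (EuclideanSpace ℝ (Fin m)) x
  have hnh := fun x : {x // F x = c} =>
    (chartAt (EuclideanSpace ℝ (Fin m)) x).open_target.mem_nhds (mem_chart_target _ x)
  have hat : ∀ x : {x // F x = c}, ContDiffAt ℝ ∞ (inChart m (fun x => f x.1) x)
      (chartAt (EuclideanSpace ℝ (Fin m)) x x) := fun x =>
    hf.contDiffAt.comp _ ((hgood x).2.contDiffAt (hnh x))
  have hsm : ContMDiff (𝓡 m) (𝓡 (m + 1)) ∞ (fun x : {x // F x = c} => f x) := by
    intro x
    rw [contMDiffAt_iff]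
    refine ⟨(hf.continuous.comp continuous_subtype_val).continuousAt, ?_⟩
    simpa [mfld_simps, contDiffWithinAt_univ, inChart] using hat x
  have hinj : ∀ x : {x // F x = c}, Injective (fderiv ℝ (inChart m (fun x => f x.1) x)
      (chartAt (EuclideanSpace ℝ (Fin m)) x x)) := by
    intro x
    obtain ⟨i, hP⟩ := (hgood x).1
    have h1 : (fun z => dropCoord i (inChart m (fun x => f x.1) x z)) =ᶠ[𝓝 (chartAt _ x x)]
        fun z => z := by
      filter_upwards [hnh x] with z hz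
      exact (hP _).symm.trans ((chartAt (EuclideanSpace ℝ (Fin m)) x).right_inv hz)
    have h2 := ((dropCoord i).hasFDerivAt.comp _
      ((hat x).differentiableAt (by simp)).hasFDerivAt).unique
      ((hasFDerivAt_id _).congr_of_eventuallyEq h1)
    exact LeftInverse.injective (g := dropCoord i) fun v => congrArg (fun T => T v) h2
  refine ⟨inferInstance, ?_, hsm, fun x => ?_, ?_⟩
  · apply isManifold_of_contDiffOn
    intro e e' he he'
    obtain ⟨i, hP⟩ := he'.1
    have : ContDiffOn ℝ ∞ (fun z => dropCoord i (f (e.symm z : E))) e.target :=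
      ((dropCoord i).contDiff.comp hf).comp_contDiffOn he.2
    simp only [mfld_simps]
    refine (this.mono inter_subset_left).congr fun z _ => ?_
    simp [hP]
  · rw [((hsm x).mdifferentiableAt (by simp)).mfderiv]
    have : fderivWithin ℝ (writtenInExtChartAt (𝓡 m) (𝓡 (m + 1)) x
        (fun x : {x // F x = c} => f x)) (range (𝓡 m)) (extChartAt (𝓡 m) x x) =
        fderiv ℝ (inChart m (fun x => f x.1) x) (chartAt (EuclideanSpace ℝ (Fin m)) x x) := by
      simp [writtenInExtChartAt, mfld_simps, inChart]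
    rw [this]
    exact hinj x
  refine iSup_le fun x => iSup_le fun v => iSup_le fun hv => ?_
  change ‖fderiv ℝ (inChart m (fun x => f x.1) x) (chartAt (EuclideanSpace ℝ (Fin m)) x x) v‖ = 1
    at hv
  have hi := hinj x
  have ha := hat x
  set z₀ := chartAt (EuclideanSpace ℝ (Fin m)) x x
  set φ := inChart m (fun x : {x // F x = c} => f x.1) x
  set ψ := fun z => ((chartAt (EuclideanSpace ℝ (Fin m)) x).symm z : E)
  have hψc : ∀ z, F (ψ z) = c := fun z => ((chartAt (EuclideanSpace ℝ (Fin m)) x).symm z).2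
  have hψd : ∀ᶠ z in 𝓝 z₀, DifferentiableAt ℝ ψ z := by
    filter_upwards [hnh x] with z hz
    exact ((hgood x).2.contDiffAt ((chartAt _ x).open_target.mem_nhds hz)).differentiableAt
      (by simp)
  have key : ∀ z, DifferentiableAt ℝ ψ z → ∀ u, ⟪n (ψ z), fderiv ℝ φ z u⟫ = 0 ∧
      ‖fderiv ℝ n (ψ z) (fderiv ℝ ψ z u)‖ ≤ ‖fderiv ℝ φ z u‖ := by
    intro z hz u
    have h1 := ((hF.differentiable (by simp) (ψ z)).hasFDerivAt.comp z hz.hasFDerivAt).unique
      (show HasFDerivAt (F ∘ ψ) (0 : EuclideanSpace ℝ (Fin m) →L[ℝ] G) z by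
        rw [show F ∘ ψ = fun _ => c from funext hψc]
        exact hasFDerivAt_const c z)
    have h2 := hT _ (hψc z) _ (congrArg (fun T => T u) h1)
    rw [show fderiv ℝ φ z = _ from
      ((hf.differentiable (by simp) (ψ z)).hasFDerivAt.comp z hz.hasFDerivAt).fderiv]
    exact ⟨h2.1.1, h2.2⟩
  have hd0 : DifferentiableAt ℝ ψ z₀ := hψd.self_of_nhds
  have hD1 : DifferentiableAt ℝ (fderiv ℝ φ) z₀ :=
    (ha.fderiv_right (m := 1) (by norm_cast)).differentiableAt (by simp)
  have h1 := ((hn.differentiable (by simp) (ψ z₀)).hasFDerivAt.comp z₀ hd0.hasFDerivAt).inner ℝ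
    (hD1.hasFDerivAt.clm_apply (hasFDerivAt_const v z₀))
  have h2 := congrArg (fun T => T v) (h1.unique
    ((hasFDerivAt_const (0 : ℝ) z₀).congr_of_eventuallyEq (by
      filter_upwards [hψd] with z hz using (key z hz v).1)))
  have h3 : ⟪n (ψ z₀), fderiv ℝ (fderiv ℝ φ) z₀ v v⟫ +
    ⟪fderiv ℝ n (ψ z₀) (fderiv ℝ ψ z₀ v), fderiv ℝ φ z₀ v⟫ = 0 := by simpa using h2
  have hL : ‖innerSL ℝ (n (ψ z₀))‖ = ρ := by rw [innerSL_apply_norm, hnρ _ (hψc _)]
  have hL0 : innerSL ℝ (n (ψ z₀)) ≠ 0 := norm_pos_iff.1 (hL ▸ hρ)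
  have hle : LinearMap.range (fderiv ℝ φ z₀).toLinearMap ≤
      LinearMap.ker (innerSL ℝ (n (ψ z₀))).toLinearMap := by
    rintro _ ⟨u, rfl⟩
    exact (key z₀ hd0 u).1
  have heq := Submodule.eq_of_le_of_finrank_le hle (by
    have h1 := LinearMap.finrank_range_add_finrank_ker (innerSL ℝ (n (ψ z₀))).toLinearMap
    have h2 : Module.finrank ℝ (LinearMap.range (innerSL ℝ (n (ψ z₀))).toLinearMap) ≠ 0 := by
      rw [Ne, Submodule.finrank_eq_zero, LinearMap.range_eq_bot]
      exact fun h => hL0 (ContinuousLinearMap.coe_injective h)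
    rw [LinearMap.finrank_range_of_inj hi]
    simp only [finrank_euclideanSpace, Fintype.card_fin] at h1 ⊢
    omega)
  have h4 := norm_starProjection_le _ hL0 _ heq.ge hle (fderiv ℝ (fderiv ℝ φ) z₀ v v)
  have h5 := (abs_real_inner_le_norm _ _).trans (mul_le_mul (key z₀ hd0 v).2
    (le_refl ‖fderiv ℝ φ z₀ v‖) (norm_nonneg _) (norm_nonneg _))
  rw [eq_neg_of_add_eq_zero_right h3, abs_neg, hv, mul_one] at h5
  rw [← ofReal_norm]
  refine ENNReal.ofReal_le_ofReal ?_
  rw [← one_div, le_div_iff₀ hρ, ← hL]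
  exact h4.trans_le h5

end Pool.Agent.Lib.MP_ecbb26_gt
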