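import Pool.Agent.Lib.MP_ecbb26_gt.Defs

/-!
A regular level set of a smooth function on `ℝ^(m+1)` is a smooth `m`-manifold, its inclusion is a
smooth immersion, and its normal curvature is bounded by the Hessian over the gradient.
-/

open scoped Manifold ContDiff ENNReal Topology

namespace Pool.Agent.Lib.MP_ecbb26_gt

open Set Function

variable {m : ℕ}

/-- Forget the coordinate `i`. -/
noncomputable def dropCoord (i : Fin (m + 1)) :
    EuclideanSpace ℝ (Fin (m + 1)) →L[ℝ] EuclideanSpace ℝ (Fin m) :=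
  LinearMap.toContinuousLinearMap
    { toFun := fun y => WithLp.toLp 2 fun k => y (i.succAbove k)
      map_add' := fun _ _ => rfl
      map_smul' := fun _ _ => rfl }

theorem eq_of_dropCoord_eq_zero (i : Fin (m + 1)) (y : EuclideanSpace ℝ (Fin (m + 1)))
    (h : dropCoord i y = 0) : y = y i • EuclideanSpace.single i (1 : ℝ) := by
  ext k
  by_cases hk : k = i
  · subst hk
    simp
  · obtain ⟨k', rfl⟩ := Fin.exists_succAbove_eq hk
    have : y (i.succAbove k') = 0 := congrArg (fun w : EuclideanSpace ℝ (Fin m) => w k') h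
    simp [this, hk]

theorem exists_equiv (i : Fin (m + 1)) (L : EuclideanSpace ℝ (Fin (m + 1)) →L[ℝ] ℝ)
    (hL : L (EuclideanSpace.single i (1 : ℝ)) ≠ 0) :
    ∃ e : EuclideanSpace ℝ (Fin (m + 1)) ≃L[ℝ] ℝ × EuclideanSpace ℝ (Fin m),
      (e : EuclideanSpace ℝ (Fin (m + 1)) →L[ℝ] ℝ × EuclideanSpace ℝ (Fin m)) =
        L.prod (dropCoord i) := by
  have hinj : Injective (L.prod (dropCoord i)).toLinearMap := by
    rw [injective_iff_map_eq_zero]
    intro y hy
    have h1 : L y = 0 := congrArg Prod.fst hy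
    have h2 : dropCoord i y = 0 := congrArg Prod.snd hy
    have h3 := eq_of_dropCoord_eq_zero i y h2
    rw [h3, map_smul, smul_eq_mul] at h1
    rw [h3, (mul_eq_zero.1 h1).resolve_right hL, zero_smul]
  have hdim : Module.finrank ℝ (EuclideanSpace ℝ (Fin (m + 1))) =
      Module.finrank ℝ (ℝ × EuclideanSpace ℝ (Fin m)) := by
    simp [add_comm]
  refine ⟨(LinearMap.linearEquivOfInjective _ hinj hdim).toContinuousLinearEquiv, ?_⟩
  ext1 y
  rfl

variable {F : EuclideanSpace ℝ (Fin (m + 1)) → ℝ} {c : ℝ}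

theorem exists_local_diffeo (hF : ContDiff ℝ ∞ F) (x₀ : EuclideanSpace ℝ (Fin (m + 1)))
    (hx : fderiv ℝ F x₀ ≠ 0) :
    ∃ (P : EuclideanSpace ℝ (Fin (m + 1)) →L[ℝ] EuclideanSpace ℝ (Fin m))
      (Φ : OpenPartialHomeomorph (EuclideanSpace ℝ (Fin (m + 1)))
        (ℝ × EuclideanSpace ℝ (Fin m))),
      (∀ y, Φ y = (F y, P y)) ∧ x₀ ∈ Φ.source ∧ ContDiffOn ℝ ∞ Φ.symm Φ.target := by
  obtain ⟨i, hi⟩ : ∃ i, fderiv ℝ F x₀ (EuclideanSpace.single i (1 : ℝ)) ≠ 0 := by
    by_contra h
    push Not at h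
    apply hx
    ext1 y
    rw [← (EuclideanSpace.basisFun (Fin (m + 1)) ℝ).sum_repr y]
    simp [h]
  have hG : ContDiff ℝ ∞ (fun y => (F y, dropCoord i y)) := hF.prodMk (dropCoord i).contDiff
  have hG' : ∀ y, HasFDerivAt (fun y => (F y, dropCoord i y))
      ((fderiv ℝ F y).prod (dropCoord i)) y := fun y =>
    ((hF.differentiable (by simp)) y).hasFDerivAt.prodMk (dropCoord i).hasFDerivAt
  obtain ⟨e, he⟩ := exists_equiv i _ hi
  have hU : IsOpen {y | fderiv ℝ F y (EuclideanSpace.single i (1 : ℝ)) ≠ 0} := by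
    have : Continuous fun y => fderiv ℝ F y (EuclideanSpace.single i (1 : ℝ)) :=
      (hF.continuous_fderiv (by simp)).clm_apply continuous_const
    exact isOpen_ne_fun this continuous_const
  let Φ₀ := (hG.contDiffAt (x := x₀)).toOpenPartialHomeomorph _ (he ▸ hG' x₀) (by simp)
  refine ⟨dropCoord i, Φ₀.restrOpen _ hU, fun y => rfl,
    ⟨ContDiffAt.mem_toOpenPartialHomeomorph_source _ _ _, hi⟩, ?_⟩
  intro a ha
  have hs := (Φ₀.restrOpen _ hU).map_target ha
  obtain ⟨e', he'⟩ := exists_equiv i _ hs.2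
  exact ((Φ₀.restrOpen _ hU).contDiffAt_symm (f₀' := e') ha (he' ▸ hG' _)
    hG.contDiffAt).contDiffWithinAt

/-- A chart of the level set that is the restriction of a linear map and whose inverse is smooth
as a map to the ambient space. -/
def GoodChart (F : EuclideanSpace ℝ (Fin (m + 1)) → ℝ) (c : ℝ)
    (e : OpenPartialHomeomorph {x // F x = c} (EuclideanSpace ℝ (Fin m))) : Prop :=
  (∃ P : EuclideanSpace ℝ (Fin (m + 1)) →L[ℝ] EuclideanSpace ℝ (Fin m), ∀ y, e y = P y) ∧
    ContDiffOn ℝ ∞ (fun z => (e.symm z : EuclideanSpace ℝ (Fin (m + 1)))) e.target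

theorem exists_goodChart (hF : ContDiff ℝ ∞ F) (x₀ : {x // F x = c})
    (hx : fderiv ℝ F x₀ ≠ 0) : ∃ e, x₀ ∈ e.source ∧ GoodChart F c e := by
  classical
  obtain ⟨P, Φ, hΦ, hx₀, hsm⟩ := exists_local_diffeo hF x₀ hx
  have h1 : ∀ z, (c, z) ∈ Φ.target → F (Φ.symm (c, z)) = c := fun z hz => by
    have := Φ.right_inv hz
    rw [hΦ] at this
    exact congrArg Prod.fst this
  have h2 : ∀ z, (c, z) ∈ Φ.target → P (Φ.symm (c, z)) = z := fun z hz => by
    have := Φ.right_inv hz
    rw [hΦ] at this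
    exact congrArg Prod.snd this
  have h3 : ∀ y : {x // F x = c}, (c, P y) = Φ y := fun y => by rw [hΦ, y.2]
  let inv : EuclideanSpace ℝ (Fin m) → {x // F x = c} := fun z =>
    if h : (c, z) ∈ Φ.target then ⟨Φ.symm (c, z), h1 z h⟩ else x₀
  have h4 : ∀ z, (c, z) ∈ Φ.target → (inv z : EuclideanSpace ℝ (Fin (m + 1))) = Φ.symm (c, z) :=
    fun z hz => by simp only [inv, dif_pos hz]
  have h5 : ContDiffOn ℝ ∞ (fun z => (inv z : EuclideanSpace ℝ (Fin (m + 1))))
      ((fun z => (c, z)) ⁻¹' Φ.target) := by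
    have : ContDiffOn ℝ ∞ (fun z : EuclideanSpace ℝ (Fin m) => Φ.symm (c, z))
        ((fun z => (c, z)) ⁻¹' Φ.target) :=
      hsm.comp (contDiff_const.prodMk contDiff_id).contDiffOn fun z hz => hz
    exact this.congr fun z hz => h4 z hz
  let e : OpenPartialHomeomorph {x // F x = c} (EuclideanSpace ℝ (Fin m)) :=
    { toFun := fun y => P y
      invFun := inv
      source := Subtype.val ⁻¹' Φ.source
      target := (fun z => (c, z)) ⁻¹' Φ.target
      map_source' := fun y hy => by
        change (c, P y) ∈ Φ.target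
        rw [h3]
        exact Φ.map_source hy
      map_target' := fun z hz => by
        change (inv z : EuclideanSpace ℝ (Fin (m + 1))) ∈ Φ.source
        rw [h4 z hz]
        exact Φ.map_target hz
      left_inv' := fun y hy => by
        apply Subtype.ext
        rw [h4 _ (by rw [h3]; exact Φ.map_source hy), h3]
        exact Φ.left_inv hy
      right_inv' := fun z hz => by
        rw [h4 z hz]
        exact h2 z hz
      open_source := Φ.open_source.preimage continuous_subtype_val
      open_target := Φ.open_target.preimage (by fun_prop)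
      continuousOn_toFun := (P.continuous.comp continuous_subtype_val).continuousOn
      continuousOn_invFun := by
        rw [Topology.IsInducing.subtypeVal.continuousOn_iff]
        exact h5.continuousOn }
  exact ⟨e, hx₀, ⟨P, fun _ => rfl⟩, h5⟩

/-- The charted space structure on a regular level set. -/
@[reducible] noncomputable def levelCharts (hF : ContDiff ℝ ∞ F)
    (hreg : ∀ x, F x = c → fderiv ℝ F x ≠ 0) :
    ChartedSpace (EuclideanSpace ℝ (Fin m)) {x // F x = c} where
  atlas := {e | GoodChart F c e}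
  chartAt x := (exists_goodChart hF x (hreg x x.2)).choose
  mem_chart_source x := (exists_goodChart hF x (hreg x x.2)).choose_spec.1
  chart_mem_atlas x := (exists_goodChart hF x (hreg x x.2)).choose_spec.2

theorem norm_starProjection_le {E : Type*} [NormedAddCommGroup E] [InnerProductSpace ℝ E]
    [FiniteDimensional ℝ E] (L : E →L[ℝ] ℝ) (hL : L ≠ 0) (S : Submodule ℝ E)
    (hS : LinearMap.ker L.toLinearMap ≤ S) (hS' : S ≤ LinearMap.ker L.toLinearMap) (a : E) :
    ‖Sᗮ.starProjection a‖ * ‖L‖ = |L a| := by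
  have hSe : S = LinearMap.ker L.toLinearMap := le_antisymm hS' hS
  set g := (InnerProductSpace.toDual ℝ E).symm L with hg
  have hgL : ∀ y, L y = inner ℝ g y := fun y => by
    rw [hg, InnerProductSpace.toDual_symm_apply]
  have hn : ‖g‖ = ‖L‖ := (InnerProductSpace.toDual ℝ E).symm.norm_map L
  have hg0 : ‖g‖ ≠ 0 := by rw [hn]; exact norm_ne_zero_iff.2 hL
  have hS2 : S = (ℝ ∙ g)ᗮ := by
    rw [hSe]
    ext y
    rw [Submodule.mem_orthogonal_singleton_iff_inner_right, LinearMap.mem_ker]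
    exact (hgL y) ▸ Iff.rfl
  have hS3 : Sᗮ = ℝ ∙ g := by rw [hS2, Submodule.orthogonal_orthogonal]
  have : Sᗮ.starProjection a = (ℝ ∙ g).starProjection a := by
    congr 1
    simp only [hS3]
  rw [this, Submodule.starProjection_singleton, norm_smul, ← hn, hgL]
  simp only [RCLike.ofReal_real_eq_id, id_eq, Real.norm_eq_abs, abs_div, abs_pow, abs_norm]
  field_simp

/-- The map `f` read in the chart at `x`. -/
noncomputable def inChart (m : ℕ) {N : ℕ} {X : Type} [TopologicalSpace X]
    [ChartedSpace (EuclideanSpace ℝ (Fin m)) X] (f : X → EuclideanSpace ℝ (Fin N)) (x : X) :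
    EuclideanSpace ℝ (Fin m) → EuclideanSpace ℝ (Fin N) :=
  f ∘ (chartAt (EuclideanSpace ℝ (Fin m)) x).symm

theorem levelSet_main (hF : ContDiff ℝ ∞ F) (hreg : ∀ x, F x = c → fderiv ℝ F x ≠ 0) :
    ∃ _ : ChartedSpace (EuclideanSpace ℝ (Fin m)) {x // F x = c},
      IsManifold (𝓡 m) ∞ {x // F x = c} ∧
      ContMDiff (𝓡 m) (𝓡 (m + 1)) ∞
        (Subtype.val : {x // F x = c} → EuclideanSpace ℝ (Fin (m + 1))) ∧
      (∀ x, Injective (mfderiv (𝓡 m) (𝓡 (m + 1))
        (Subtype.val : {x // F x = c} → EuclideanSpace ℝ (Fin (m + 1))) x)) ∧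
      ∀ κ : ℝ, (∀ x, F x = c → ∀ w, |fderiv ℝ (fderiv ℝ F) x w w| ≤
          κ * ‖fderiv ℝ F x‖ * ‖w‖ ^ 2) →
        normalCurvature (EuclideanSpace ℝ (Fin m))
          (Subtype.val : {x // F x = c} → EuclideanSpace ℝ (Fin (m + 1))) ≤
          ENNReal.ofReal κ := by
  let _ := levelCharts hF hreg
  have hgood : ∀ x : {x // F x = c}, GoodChart F c (chartAt (EuclideanSpace ℝ (Fin m)) x) :=
    fun x => chart_mem_atlas (EuclideanSpace ℝ (Fin m)) x
  have hat : ∀ x : {x // F x = c}, ContDiffAt ℝ ∞ (inChart m Subtype.val x)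
      (chartAt (EuclideanSpace ℝ (Fin m)) x x) := fun x =>
    (hgood x).2.contDiffAt ((chartAt _ x).open_target.mem_nhds (mem_chart_target _ x))
  have hsm : ContMDiff (𝓡 m) (𝓡 (m + 1)) ∞
      (Subtype.val : {x // F x = c} → EuclideanSpace ℝ (Fin (m + 1))) := by
    intro x
    rw [contMDiffAt_iff]
    refine ⟨continuous_subtype_val.continuousAt, ?_⟩
    simpa [mfld_simps, contDiffWithinAt_univ, inChart] using hat x
  have hleft : ∀ x : {x // F x = c}, ∃ P : EuclideanSpace ℝ (Fin (m + 1)) →L[ℝ]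
      EuclideanSpace ℝ (Fin m), ∀ v, P (fderiv ℝ (inChart m Subtype.val x)
        (chartAt (EuclideanSpace ℝ (Fin m)) x x) v) = v := by
    intro x
    obtain ⟨P, hP⟩ := (hgood x).1
    refine ⟨P, fun v => ?_⟩
    have h1 : (fun z => P (inChart m Subtype.val x z)) =ᶠ[𝓝 (chartAt _ x x)] fun z => z := by
      filter_upwards [(chartAt (EuclideanSpace ℝ (Fin m)) x).open_target.mem_nhds
        (mem_chart_target _ x)] with z hz
      have := (chartAt (EuclideanSpace ℝ (Fin m)) x).right_inv hz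
      rw [hP] at this
      exact this
    have h2 := (P.hasFDerivAt.comp _ ((hat x).differentiableAt (by simp)).hasFDerivAt).unique
      ((hasFDerivAt_id _).congr_of_eventuallyEq h1)
    exact congrArg (fun T => T v) h2
  refine ⟨inferInstance, ?_, hsm, ?_, ?_⟩
  · apply isManifold_of_contDiffOn
    intro e e' he he'
    obtain ⟨P, hP⟩ := he'.1
    have : ContDiffOn ℝ ∞ (fun z => P (e.symm z : EuclideanSpace ℝ (Fin (m + 1)))) e.target :=
      P.contDiff.comp_contDiffOn he.2
    simp only [mfld_simps]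
    refine (this.mono inter_subset_left).congr fun z _ => ?_
    simp [hP]
  · intro x
    obtain ⟨P, hP⟩ := hleft x
    rw [((hsm x).mdifferentiableAt (by simp)).mfderiv]
    have : fderivWithin ℝ (writtenInExtChartAt (𝓡 m) (𝓡 (m + 1)) x
        (Subtype.val : {x // F x = c} → EuclideanSpace ℝ (Fin (m + 1)))) (range (𝓡 m))
        (extChartAt (𝓡 m) x x) = fderiv ℝ (inChart m Subtype.val x)
        (chartAt (EuclideanSpace ℝ (Fin m)) x x) := by
      simp [writtenInExtChartAt, mfld_simps, inChart]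
    rw [this]
    exact LeftInverse.injective hP
  · intro κ hκ
    refine iSup_le fun x => iSup_le fun v => iSup_le fun hv => ?_
    change ‖fderiv ℝ (inChart m Subtype.val x) (chartAt (EuclideanSpace ℝ (Fin m)) x x) v‖ = 1
      at hv
    set z₀ := chartAt (EuclideanSpace ℝ (Fin m)) x x with hz₀
    set ψ := inChart m (Subtype.val : {x // F x = c} → EuclideanSpace ℝ (Fin (m + 1))) x with hψ
    have hψ0 : ψ z₀ = x := by
      simp [hψ, hz₀, inChart]
    have hψc : ∀ z, F (ψ z) = c := fun z => ((chartAt (EuclideanSpace ℝ (Fin m)) x).symm z).2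
    have hψd : ∀ᶠ z in 𝓝 z₀, DifferentiableAt ℝ ψ z := by
      filter_upwards [(chartAt (EuclideanSpace ℝ (Fin m)) x).open_target.mem_nhds
        (mem_chart_target _ x)] with z hz
      exact ((hgood x).2.contDiffAt ((chartAt _ x).open_target.mem_nhds hz)).differentiableAt
        (by simp)
    have hFd : Differentiable ℝ F := hF.differentiable (by simp)
    have hzero : ∀ z, DifferentiableAt ℝ ψ z → ∀ u, fderiv ℝ F (ψ z) (fderiv ℝ ψ z u) = 0 := by
      intro z hz u
      have h1 := ((hFd (ψ z)).hasFDerivAt.comp z hz.hasFDerivAt).unique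
        (show HasFDerivAt (F ∘ ψ) (0 : EuclideanSpace ℝ (Fin m) →L[ℝ] ℝ) z by
          rw [show F ∘ ψ = fun _ => c from funext hψc]
          exact hasFDerivAt_const c z)
      exact congrArg (fun T => T u) h1
    have hd0 : DifferentiableAt ℝ ψ z₀ := hψd.self_of_nhds
    have hD1 : DifferentiableAt ℝ (fderiv ℝ ψ) z₀ :=
      ((hat x).fderiv_right (m := 1) (by norm_cast)).differentiableAt (by simp)
    have hD2 : DifferentiableAt ℝ (fderiv ℝ F) (ψ z₀) :=
      ((hF.contDiffAt.fderiv_right (m := 1) (by norm_cast))).differentiableAt (by simp)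
    have hsecond : fderiv ℝ (fderiv ℝ F) (ψ z₀) (fderiv ℝ ψ z₀ v) (fderiv ℝ ψ z₀ v) +
        fderiv ℝ F (ψ z₀) (fderiv ℝ (fderiv ℝ ψ) z₀ v v) = 0 := by
      have h1 := (hD2.hasFDerivAt.comp z₀ hd0.hasFDerivAt).clm_apply
        (hD1.hasFDerivAt.clm_apply (hasFDerivAt_const v z₀))
      have h2 : HasFDerivAt (fun z => (fderiv ℝ F ∘ ψ) z (fderiv ℝ ψ z v))
          (0 : EuclideanSpace ℝ (Fin m) →L[ℝ] ℝ) z₀ := by
        refine (hasFDerivAt_const (0 : ℝ) z₀).congr_of_eventuallyEq ?_
        filter_upwards [hψd] with z hz using hzero z hz v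
      have h3 := congrArg (fun T => T v) (h1.unique h2)
      simpa [add_comm] using h3
    obtain ⟨P, hP⟩ := hleft x
    have hL : fderiv ℝ F (ψ z₀) ≠ 0 := hreg _ (hψc _)
    have hle : LinearMap.range (fderiv ℝ ψ z₀).toLinearMap ≤
        LinearMap.ker (fderiv ℝ F (ψ z₀)).toLinearMap := by
      rintro _ ⟨u, rfl⟩
      exact hzero z₀ hd0 u
    have hge : LinearMap.ker (fderiv ℝ F (ψ z₀)).toLinearMap ≤
        LinearMap.range (fderiv ℝ ψ z₀).toLinearMap := by
      apply ge_of_eq
      apply Submodule.eq_of_le_of_finrank_eq hle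
      rw [LinearMap.finrank_range_of_inj (LeftInverse.injective hP)]
      have h1 := LinearMap.finrank_range_add_finrank_ker (fderiv ℝ F (ψ z₀)).toLinearMap
      have h2 : LinearMap.range (fderiv ℝ F (ψ z₀)).toLinearMap = ⊤ := by
        rcases eq_bot_or_eq_top (LinearMap.range (fderiv ℝ F (ψ z₀)).toLinearMap) with h | h
        · exfalso
          apply hL
          rw [LinearMap.range_eq_bot] at h
          ext1 y
          exact congrArg (fun T => T y) h
        · exact h
      rw [h2] at h1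
      simp at h1 ⊢
      omega
    have key := norm_starProjection_le _ hL _ hge hle (fderiv ℝ (fderiv ℝ ψ) z₀ v v)
    have hb := hκ _ (hψc z₀) (fderiv ℝ ψ z₀ v)
    rw [hv, one_pow, mul_one, eq_neg_of_add_eq_zero_left hsecond, abs_neg, ← key] at hb
    have hb' := le_of_mul_le_mul_right hb (norm_pos_iff.2 hL)
    rw [← ofReal_norm]
    exact ENNReal.ofReal_le_ofReal hb'

end Pool.Agent.Lib.MP_ecbb26_gt
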