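import Pool.Agent.Lib.MP_ecbb26_gt.Imm
import Pool.Agent.Lib.MP_ecbb26_gt.Level2
import Pool.Agent.Lib.MP_ecbb26_gt.Torus

/-! The normal sphere bundle of the immersed torus, immersed as a tube. -/

set_option autoImplicit false

open scoped Manifold ContDiff RealInnerProductSpace

namespace Pool.Agent.Lib.MP_ecbb26_gt.JL

open Finset Complex

variable {l m : ℕ}
  (g : ContinuousMultilinearMap ℝ (fun _ : Fin l => ℂ) (EuclideanSpace ℝ (Fin (m + 1))))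

/-- The equations of the normal sphere bundle. -/
noncomputable def eqn (x : (Fin l → ℂ) × EuclideanSpace ℝ (Fin (m + 1))) :
    (Fin l → ℝ) × (Fin l → ℝ) × ℝ :=
  (fun j => ‖x.1 j‖ ^ 2, fun j => ⟪g (u j * x.1), x.2⟫, ‖x.2‖ ^ 2)

lemma eqn_iff {ρ : ℝ} (hρ : 0 < ρ) (x : (Fin l → ℂ) × EuclideanSpace ℝ (Fin (m + 1))) :
    eqn g x = (1, 0, ρ ^ 2) ↔ T x.1 ∧ (∀ j, ⟪g (u j * x.1), x.2⟫ = 0) ∧ ‖x.2‖ = ρ := by
  simp only [eqn, Prod.mk.injEq, funext_iff, T, Pi.one_apply, Pi.zero_apply,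
    sq_eq_sq₀ (norm_nonneg _) hρ.le, pow_eq_one_iff_of_nonneg (norm_nonneg _) two_ne_zero]

lemma contDiff_eqn : ContDiff ℝ ∞ (eqn g) :=
  (contDiff_pi.2 fun j => ((contDiff_apply ℝ ℂ j).comp contDiff_fst).norm_sq ℝ).prodMk
    ((contDiff_pi.2 fun _ => (g.contDiff.comp (contDiff_const.mul contDiff_fst)).inner ℝ
      contDiff_snd).prodMk (contDiff_snd.norm_sq ℝ))

lemma lin (z : Fin l → ℂ) (v : Fin l → ℝ) :
    g.linearDeriv z (fun j => v j • (I * z j)) = Dv v g z := by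
  rw [g.linearDeriv_apply]
  refine sum_congr rfl fun j _ => ?_
  rw [g.map_update_smul]
  congr 2
  ext i
  by_cases h : i = j <;> simp [u, h]

lemma tangent {ρ : ℝ} (hρ : 0 < ρ) (hρ' : ρ ≤ 1 / 10 ^ 6)
    (hg : ∀ z, T z → ∀ v, (∑ j, v j ^ 2) / 16384 ≤ ‖Dv v g z‖ ^ 2 ∧
      ‖Dv v (Dv v g) z‖ ≤ 15 * ∑ j, v j ^ 2) (x) (hx : eqn g x = (1, 0, ρ ^ 2)) (ξ)
    (hξ : fderiv ℝ (eqn g) x ξ = 0) :
    (⟪x.2, fderiv ℝ (fun y => g y.1 + y.2) x ξ⟫ = 0 ∧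
      (fderiv ℝ (fun y => g y.1 + y.2) x ξ = 0 → ξ = 0)) ∧
      ‖fderiv ℝ Prod.snd x ξ‖ ≤ ‖fderiv ℝ (fun y => g y.1 + y.2) x ξ‖ := by
  obtain ⟨z, n⟩ := x
  obtain ⟨ζ, η⟩ := ξ
  obtain ⟨h1, h2, h3⟩ := (eqn_iff g hρ _).1 hx
  erw [((hasFDerivAt_pi.2 fun j => ((hasFDerivAt_apply j z).comp (z, n) hasFDerivAt_fst
    ).norm_sq).prodMk ((hasFDerivAt_pi.2 fun j => (((g.hasFDerivAt (u j * z)).comp (z, n)
      (hasFDerivAt_fst.const_mul (u j))).inner ℝ hasFDerivAt_snd)).prodMk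
        hasFDerivAt_snd.norm_sq)).fderiv] at hξ
  have e1 : ∀ j, ⟪z j, ζ j⟫ = 0 := fun j => by
    simpa [← mul_add] using congrFun (congrArg (·.1) hξ) j
  have e2 : ∀ j, ⟪g (u j * z), η⟫ + ⟪g.linearDeriv (u j * z) (u j * ζ), n⟫ = 0 := fun j => by
    simpa using congrFun (congrArg (·.2.1) hξ) j
  have e3 : ⟪n, η⟫ = 0 := by simpa using congrArg (·.2.2) hξ
  obtain ⟨v, rfl⟩ : ∃ v : Fin l → ℝ, ζ = fun j => v j • (I * z j) := by
    refine ⟨fun j => (ζ j * (starRingEnd ℂ) (z j)).im, funext fun j => ?_⟩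
    have h := re_add_im (ζ j * (starRingEnd ℂ) (z j))
    rw [← Complex.inner, e1, ofReal_zero, zero_add] at h
    rw [real_smul, ← mul_assoc, h, mul_assoc, conj_mul', h1 j]
    simp
  have e4 : ⟪Dv v g z, η⟫ + ⟪Dv v (Dv v g) z, n⟫ = 0 := by
    rw [Dv.eq_1 v g, Dv.eq_1 v (Dv v g), sum_inner, sum_inner, ← sum_add_distrib]
    refine sum_eq_zero fun j _ => ?_
    rw [real_inner_smul_left, real_inner_smul_left, ← mul_add, ← lin, mul_eq_zero]
    refine Or.inr (Eq.trans ?_ (e2 j))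
    congr 3
    ext i
    simp [mul_left_comm]
  have e5 : ⟪n, Dv v g z⟫ = 0 := by
    rw [real_inner_comm, Dv, sum_inner]
    exact sum_eq_zero fun j _ => by rw [real_inner_smul_left, h2, mul_zero]
  erw [(((g.hasFDerivAt z).comp (z, n) hasFDerivAt_fst).add hasFDerivAt_snd).fderiv, fderiv_snd]
  change (⟪n, g.linearDeriv z (fun j => v j • (I * z j)) + η⟫ = 0 ∧
    (g.linearDeriv z (fun j => v j • (I * z j)) + η = 0 → _)) ∧
      ‖η‖ ≤ ‖g.linearDeriv z (fun j => v j • (I * z j)) + η‖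
  obtain ⟨k1, k2⟩ := hg z h1 v
  have k0 : 0 ≤ ∑ j, v j ^ 2 := by positivity
  have k3 := (abs_le.1 ((abs_real_inner_le_norm _ n).trans
    (mul_le_mul k2 (h3.le.trans hρ') (norm_nonneg _) (by positivity)))).2
  have k4 := norm_add_sq_real (Dv v g z) η
  rw [lin, inner_add_right, e3, e5, add_zero]
  refine ⟨⟨rfl, fun h => ?_⟩, abs_le_of_sq_le_sq' (by linarith) (norm_nonneg _) |>.2⟩
  rw [h, norm_zero] at k4
  have k5 : ∑ j, v j ^ 2 = 0 := by nlinarith [sq_nonneg ‖η‖]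
  have k6 : ‖η‖ ^ 2 = 0 := by nlinarith [sq_nonneg ‖η‖]
  ext1
  · ext j
    simp [(pow_eq_zero_iff two_ne_zero).1
      ((sum_eq_zero_iff_of_nonneg fun _ _ => sq_nonneg _).1 k5 j (mem_univ j))]
  · simpa using k6

/-- A section over the torus. -/
noncomputable def sec (m : ℕ) (ρ : ℝ) (θ : Fin l → ℝ) :
    (Fin l → ℂ) × EuclideanSpace ℝ (Fin (m + 1)) :=
  (fun j => exp (0 + 2 * Real.pi * I * θ j), EuclideanSpace.single 0 ρ)

lemma continuous_sec (ρ : ℝ) : Continuous (sec (l := l) m ρ) := by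
  unfold sec; fun_prop

lemma eqn_sec {ρ : ℝ} (hρ : 0 < ρ) (h0 : ∀ z, g z 0 = 0) (θ : Fin l → ℝ) :
    eqn g (sec m ρ θ) = (1, 0, ρ ^ 2) :=
  (eqn_iff g hρ _).2 ⟨fun j => by simp [sec, norm_exp], fun j => by
    simp [sec, EuclideanSpace.inner_single_right, h0], by simp [sec, hρ.le]⟩

lemma connected {ρ : ℝ} (hρ : 0 < ρ) (h0 : ∀ z, g z 0 = 0) (hlm : l < m) :
    ConnectedSpace {x // eqn g x = (1, 0, ρ ^ 2)} := by
  refine isConnected_iff_connectedSpace.1 ⟨⟨_, eqn_sec g hρ h0 0⟩,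
    isPreconnected_of_forall (sec m ρ 0) fun y hy => ?_⟩
  obtain ⟨h1, h2, h3⟩ := (eqn_iff g hρ _).1 hy
  let K := (Submodule.span ℝ (Set.range fun j => g (u j * y.1)))ᗮ
  have hK : ∀ n, n ∈ K ↔ ∀ j, ⟪g (u j * y.1), n⟫ = 0 := fun n => by
    simp only [K, Submodule.mem_orthogonal]
    exact ⟨fun h j => h _ (Submodule.subset_span ⟨j, rfl⟩), fun h w hw =>
      Submodule.span_induction (by rintro _ ⟨j, rfl⟩; exact h j) (inner_zero_left _)
        (fun _ _ _ _ ha hb => by rw [inner_add_left, ha, hb, add_zero])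
        (fun _ _ _ ha => by rw [real_inner_smul_left, ha, mul_zero]) hw⟩
  have hr : 1 < Module.rank ℝ K := by
    have h4 := (Submodule.span ℝ (Set.range fun j => g (u j * y.1))).finrank_add_finrank_orthogonal
    have h5 := finrank_range_le_card (R := ℝ) fun j => g (u j * y.1)
    simp only [finrank_euclideanSpace, Fintype.card_fin, Set.finrank] at h4 h5
    exact Module.one_lt_rank_of_one_lt_finrank (by simp only [K]; omega)
  have hθ : (sec m ρ fun j => arg (y.1 j) / (2 * Real.pi)).1 = y.1 := funext fun j => by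
    have h := norm_mul_exp_arg_mul_I (y.1 j)
    rw [h1 j, ofReal_one, one_mul] at h
    rw [← h, sec]
    congr 1
    have := Real.pi_ne_zero
    push_cast
    field_simp
    simp
  have hs := (eqn_iff g hρ _).1 (eqn_sec g hρ h0 fun j => arg (y.1 j) / (2 * Real.pi))
  rw [hθ] at hs
  refine ⟨Set.range (sec m ρ) ∪ (fun n : K => (y.1, n.1)) '' Metric.sphere 0 ρ, ?_,
    Or.inl ⟨0, rfl⟩, Or.inr ⟨⟨y.2, (hK _).2 h2⟩, by simpa using h3, rfl⟩,
    (isPreconnected_range (continuous_sec ρ)).union _ ⟨_, rfl⟩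
      ⟨⟨_, (hK _).2 hs.2.1⟩, by simpa using hs.2.2, Prod.ext hθ.symm rfl⟩
      ((isPreconnected_sphere hr 0 ρ).image _ (by fun_prop))⟩
  rintro _ (⟨θ, rfl⟩ | ⟨n, hn, rfl⟩)
  exacts [eqn_sec g hρ h0 θ, (eqn_iff g hρ _).2 ⟨h1, (hK _).1 n.2, by simpa using hn⟩]

lemma cupLength {ρ : ℝ} (hρ : 0 < ρ) (h0 : ∀ z, g z 0 = 0) :
    CupLengthAtLeast ℂ {x // eqn g x = (1, 0, ρ ^ 2)} l := by
  refine cupLengthAtLeast_of_torus (fun j => ⟨fun x => x.1.1 j, by fun_prop⟩) (fun j x => ?_)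
    ⟨fun θ => ⟨_, eqn_sec g hρ h0 θ⟩, (continuous_sec ρ).subtype_mk _⟩ (fun θ j => ?_) 0
    (2 * Real.pi * I) two_pi_I_ne_zero fun _ _ => rfl
  · exact norm_pos_iff.1 (zero_lt_one.trans_eq (((eqn_iff g hρ _).1 x.2).1 j).symm)
  · refine Subtype.ext (Prod.ext (funext fun i => ?_) rfl)
    by_cases h : i = j <;> simp [sec, h, mul_add, exp_add]

lemma compact {ρ : ℝ} (hρ : 0 < ρ) (hρ' : ρ ≤ 1) :
    CompactSpace {x // eqn g x = (1, 0, ρ ^ 2)} := by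
  refine isCompact_iff_compactSpace.1 ((isCompact_closedBall 0 1).of_isClosed_subset
    (isClosed_eq (contDiff_eqn g).continuous continuous_const) fun x hx => ?_)
  obtain ⟨h1, -, h3⟩ := (eqn_iff g hρ _).1 hx
  exact mem_closedBall_zero_iff.2 (norm_prod_le_iff.2
    ⟨(pi_norm_le_iff_of_nonneg zero_le_one).2 fun j => (h1 j).le, h3.trans_le hρ'⟩)

end Pool.Agent.Lib.MP_ecbb26_gt.JL
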