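import Pool.Agent.Lib.MP_ecbb26_gt.Example

/-!
Disproof of Q1 of MP_ecbb26_gt, for every constant `c > 0` in place of `0.1`.

The example is the hypersurface `∑ (|z_j|² - a)² = a² / 4`, `a = 2 / (3 l)`, in `ℂ^l = ℝ^(2l)`
(a tube around the Clifford torus, diffeomorphic to `T^l × S^(l-1)`): `m = 2l - 1`, `k = 1`,
cup-length at least `l`, curvature at most `13 √l`, while `c l² / (m k) > c l / 2`.
-/

open scoped Manifold ContDiff ENNReal

namespace Pool.Agent.Lib.MP_ecbb26_gt.TubeCounterexample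

open Pool.Agent.Lib.MP_ecbb26_gt

theorem result : ∀ c : ℝ, 0 < c →
    ∃ m k l : ℕ, 1 ≤ m ∧ 1 ≤ k ∧ 1 ≤ l ∧
      ∃ (X : Type) (_ : TopologicalSpace X) (_ : ChartedSpace (EuclideanSpace ℝ (Fin m)) X),
        IsManifold (𝓡 m) ∞ X ∧ T2Space X ∧ CompactSpace X ∧ ConnectedSpace X ∧
        (∃ (K : Type) (_ : Field K), CupLengthAtLeast K X l) ∧
        ∃ f : X → EuclideanSpace ℝ (Fin (m + k)),
          IsBallImmersion (EuclideanSpace ℝ (Fin m)) f ∧
          normalCurvature (EuclideanSpace ℝ (Fin m)) f <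
            ENNReal.ofReal (c * (l : ℝ) ^ 2 / ((m : ℝ) * (k : ℝ))) := by
  intro c hc
  obtain ⟨t, ht⟩ := exists_nat_gt (26 / c + 2)
  have hc' : 0 < 26 / c := by positivity
  have ht2 : (2 : ℝ) < t := by linarith
  have ht2' : 2 < t := by exact_mod_cast ht2
  have hct : 26 < c * t := by
    have : 26 / c < t := by linarith
    rwa [div_lt_iff₀' hc] at this
  obtain ⟨m, hm⟩ : ∃ m : ℕ, t ^ 2 + t ^ 2 = m + 1 := ⟨t ^ 2 + t ^ 2 - 1, by
    have : 0 < t ^ 2 := by positivity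
    omega⟩
  have hl : 2 ≤ t ^ 2 := by nlinarith
  let ι : Fin (t ^ 2) ⊕ Fin (t ^ 2) ≃ Fin (m + 1) := finSumFinEquiv.trans (finCongr hm)
  have ht0 : (0 : ℝ) < t := by linarith
  set a : ℝ := 2 / (3 * (t : ℝ) ^ 2) with ha_def
  have ha : 0 < a := by positivity
  have hal : ((t ^ 2 : ℕ) : ℝ) * (3 * a / 2) ≤ 1 := by
    rw [ha_def]
    push_cast
    field_simp
    exact le_rfl
  obtain ⟨cs, h1, h2, h3, h4⟩ := levelSet_main (contDiff_tubeF ι a) (c := a ^ 2 / 4)
    (fderiv_tubeF_ne_zero ha)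
  refine ⟨m, 1, t ^ 2, by omega, le_rfl, by omega, {x // tubeF ι a x = a ^ 2 / 4}, inferInstance,
    cs, h1, inferInstance, compactSpace_tube ha hal, connectedSpace_tube ha hl,
    ⟨ℂ, inferInstance, cupLength_tube ha (by omega)⟩, Subtype.val,
    ⟨h2, h3, fun x => norm_le_one ha hal x.2⟩, ?_⟩
  have hm0 : (0 : ℝ) < m := by
    have : 0 < m := by omega
    exact_mod_cast this
  have hm1 : (m : ℝ) + 1 = 2 * (t : ℝ) ^ 2 := by
    have : ((t ^ 2 + t ^ 2 : ℕ) : ℝ) = ((m + 1 : ℕ) : ℝ) := by rw [hm]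
    push_cast at this
    linarith
  refine lt_of_le_of_lt (h4 (13 * t) (hessian_bound ha (by positivity) ?_)) ?_
  · rw [ha_def]
    have : (13 * (t : ℝ)) ^ 2 * (2 / (3 * (t : ℝ) ^ 2)) = 338 / 3 := by
      field_simp
      norm_num
    rw [this]
    norm_num
  · rw [ENNReal.ofReal_lt_ofReal_iff (by positivity), lt_div_iff₀ (by positivity)]
    push_cast
    have h5 : (0 : ℝ) < (t : ℝ) ^ 3 := by positivity
    nlinarith [mul_lt_mul_of_pos_right hct h5]

end Pool.Agent.Lib.MP_ecbb26_gt.TubeCounterexample
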